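import Mathlib

set_option autoImplicit false

namespace Pool.Agent.K6.H16.CP

/-- the monomial functions -/
def mono {d : ℕ} (b : Fin d → ℕ) : (Fin d → ℝ) → ℝ := fun x => ∏ j, x j ^ b j

theorem mono_mul {d : ℕ} (a b : Fin d → ℕ) : mono a * mono b = mono (a + b) := by
  funext x
  simp only [mono, Pi.mul_apply, Pi.add_apply, pow_add, Finset.prod_mul_distrib]

theorem mono_single {d : ℕ} (i : Fin d) (m : ℕ) (x : Fin d → ℝ) :
    mono (Pi.single i m) x = x i ^ m := by
  unfold mono
  rw [Finset.prod_eq_single i]
  · simp
  · intro j _ hj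
    simp [hj]
  · intro h
    exact absurd (Finset.mem_univ i) h

/-- Piece A. A system `p i x + ε x_i ^ (n + 1) = 0` with `deg p i ≤ n` has at most `(n + 1) ^ d` solutions. -/
theorem zeros_le {d : ℕ} (n : ℕ) (p : Fin d → (Fin d → ℝ) → ℝ)
    (hp : ∀ i, p i ∈ Submodule.span ℝ {f : (Fin d → ℝ) → ℝ |
      ∃ b : Fin d → ℕ, ∑ j, b j ≤ n ∧ f = fun x => ∏ j, x j ^ b j})
    {ε : ℝ} (hε : ε ≠ 0) (T : Finset (Fin d → ℝ))
    (hT : ∀ x ∈ T, ∀ i, p i x + ε * x i ^ (n + 1) = 0) : T.card ≤ (n + 1) ^ d := by
  classical
  -- restriction to `T`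
  let R : ((Fin d → ℝ) → ℝ) →ₗ[ℝ] (T → ℝ) :=
    { toFun := fun f t => f t.1
      map_add' := fun _ _ => rfl
      map_smul' := fun _ _ => rfl }
  let B : Submodule ℝ (T → ℝ) := Submodule.span ℝ
    (Set.range fun a : Fin d → Fin (n + 1) => R (mono fun j => (a j : ℕ)))
  have claim : ∀ N : ℕ, ∀ b : Fin d → ℕ, ∑ j, b j ≤ N → R (mono b) ∈ B := by
    intro N
    induction N with
    | zero =>
      intro b hb
      have hb0 : ∀ j, b j = 0 := by
        intro j
        have := Finset.single_le_sum (f := b) (fun _ _ => Nat.zero_le _) (Finset.mem_univ j)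
        omega
      refine Submodule.subset_span ⟨fun _ => 0, ?_⟩
      simp only [Fin.val_zero]
      congr 2
      funext j
      exact (hb0 j).symm
    | succ N ih =>
      intro b hb
      by_cases hbn : ∀ j, b j ≤ n
      · refine Submodule.subset_span ⟨fun j => ⟨b j, Nat.lt_succ_of_le (hbn j)⟩, rfl⟩
      · push Not at hbn
        obtain ⟨i, hi⟩ := hbn
        set b' : Fin d → ℕ := Function.update b i (b i - (n + 1)) with hb'
        have hbb : b = Pi.single i (n + 1) + b' := by
          funext j
          by_cases hj : j = i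
          · subst hj
            simp [hb']
            omega
          · simp [hb', hj]
        have hsum : ∑ j, b j = (n + 1) + ∑ j, b' j := by
          rw [hbb]
          simp only [Pi.add_apply, Finset.sum_add_distrib]
          rw [Finset.sum_pi_single' i (n + 1) Finset.univ]
          simp
        -- the products with the monomials of `p i`
        have hprod : ∀ f ∈ Submodule.span ℝ {f : (Fin d → ℝ) → ℝ |
            ∃ b : Fin d → ℕ, ∑ j, b j ≤ n ∧ f = fun x => ∏ j, x j ^ b j}, R (f * mono b') ∈ B := by
          intro f hf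
          induction hf using Submodule.span_induction with
          | mem f hf =>
            obtain ⟨a, ha, rfl⟩ := hf
            have : (fun x : Fin d → ℝ => ∏ j, x j ^ a j) * mono b' = mono (a + b') := mono_mul a b'
            rw [this]
            apply ih
            simp only [Pi.add_apply, Finset.sum_add_distrib]
            omega
          | zero => rw [zero_mul, map_zero]; exact B.zero_mem
          | add f g _ _ hf hg => rw [add_mul, map_add]; exact B.add_mem hf hg
          | smul c f _ hf => rw [smul_mul_assoc, map_smul]; exact B.smul_mem c hf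
        have h1 := hprod (p i) (hp i)
        have h2 : R (mono b) = (-(1 / ε)) • R (p i * mono b') := by
          funext t
          have h3 := hT t.1 t.2 i
          have h4 : (t.1 i) ^ (n + 1) = -(1 / ε) * p i t.1 := by
            field_simp
            linarith
          change mono b t.1 = -(1 / ε) * (p i t.1 * mono b' t.1)
          rw [hbb, ← mono_mul, Pi.mul_apply, mono_single, h4]
          ring
        rw [h2]
        exact B.smul_mem _ h1
  -- all polynomial functions
  have hpoly : ∀ q : MvPolynomial (Fin d) ℝ, R (fun x => MvPolynomial.eval x q) ∈ B := by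
    intro q
    have : (fun x => MvPolynomial.eval x q) = ∑ m ∈ q.support, q.coeff m • mono (fun j => m j) := by
      funext x
      rw [MvPolynomial.eval_eq']
      simp [mono]
    rw [this, map_sum]
    refine B.sum_mem fun m _ => ?_
    rw [map_smul]
    exact B.smul_mem _ (claim _ _ le_rfl)
  -- the indicators
  have htop : B = ⊤ := by
    rw [eq_top_iff]
    intro f _
    have hf : f = ∑ t : T, f t • (Pi.single t (1 : ℝ) : T → ℝ) := by
      funext s
      simp [Finset.sum_apply, Pi.single_apply]
    rw [hf]
    refine B.sum_mem fun t _ => B.smul_mem _ ?_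
    -- a polynomial which is the indicator of `t` on `T`
    have hex : ∀ s : T, ∃ q : MvPolynomial (Fin d) ℝ, MvPolynomial.eval t.1 q = 1 ∧
        (s ≠ t → MvPolynomial.eval s.1 q = 0) := by
      intro s
      by_cases hst : s = t
      · exact ⟨1, by simp, fun h => absurd hst h⟩
      · have hne : s.1 ≠ t.1 := fun h => hst (Subtype.ext h)
        obtain ⟨i, hi⟩ := Function.ne_iff.1 hne
        have hi' : t.1 i - s.1 i ≠ 0 := sub_ne_zero.2 (Ne.symm hi)
        refine ⟨MvPolynomial.C (1 / (t.1 i - s.1 i)) *
          (MvPolynomial.X i - MvPolynomial.C (s.1 i)), ?_, fun _ => ?_⟩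
        · simp only [map_mul, map_sub, MvPolynomial.eval_C, MvPolynomial.eval_X]
          field_simp
        · simp
    choose q hq1 hq2 using hex
    have h5 : (Pi.single t (1 : ℝ) : T → ℝ) =
        R (fun x => MvPolynomial.eval x (∏ s : T, q s)) := by
      funext s
      change _ = MvPolynomial.eval s.1 (∏ s : T, q s)
      rw [map_prod]
      by_cases hst : s = t
      · subst hst
        rw [Pi.single_eq_same, Finset.prod_eq_one]
        intro u _
        exact hq1 u
      · rw [Pi.single_eq_of_ne hst]
        exact (Finset.prod_eq_zero (Finset.mem_univ s) (hq2 s hst)).symm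
    rw [h5]
    exact hpoly _
  have hfin : Module.finrank ℝ B ≤ Fintype.card (Fin d → Fin (n + 1)) := finrank_range_le_card _
  rw [htop, finrank_top, Module.finrank_fintype_fun_eq_card, Fintype.card_coe] at hfin
  simpa using hfin

end Pool.Agent.K6.H16.CP
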