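import Mathlib

/-!
A quantitative inverse function theorem in `ℝ^d` with the sup norm (piece B of call16).
-/

set_option autoImplicit false

namespace Pool.Agent.K6.H16.CP

open Metric

/-- a linear map is given by its matrix -/
lemma lin_eq {d : ℕ} (T : (Fin d → ℝ) →L[ℝ] (Fin d → ℝ)) (w : Fin d → ℝ) (i : Fin d) :
    T w i = ∑ j, T (Pi.single j 1) i * w j := by
  have hw : w = ∑ j, w j • (Pi.single j (1 : ℝ) : Fin d → ℝ) := by
    ext l
    simp [Finset.sum_apply, Pi.single_apply]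
  conv_lhs => rw [hw]
  rw [map_sum, Finset.sum_apply]
  refine Finset.sum_congr rfl fun j _ => ?_
  rw [map_smul, Pi.smul_apply, smul_eq_mul, mul_comm]

lemma norm_le_of_entries {d : ℕ} (T : (Fin d → ℝ) →L[ℝ] (Fin d → ℝ)) {a : ℝ} (ha : 0 ≤ a)
    (h : ∀ i j, |T (Pi.single j 1) i| ≤ a) : ‖T‖ ≤ d * a := by
  refine ContinuousLinearMap.opNorm_le_bound _ (by positivity) fun w => ?_
  rw [pi_norm_le_iff_of_nonneg (by positivity)]
  intro i
  rw [lin_eq T w i, Real.norm_eq_abs]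
  calc |∑ j, T (Pi.single j 1) i * w j| ≤ ∑ j, |T (Pi.single j 1) i * w j| :=
        Finset.abs_sum_le_sum_abs _ _
    _ ≤ ∑ _j : Fin d, a * ‖w‖ := by
        refine Finset.sum_le_sum fun j _ => ?_
        rw [abs_mul]
        exact mul_le_mul (h i j) (by simpa using norm_le_pi_norm w j) (abs_nonneg _) ha
    _ = d * a * ‖w‖ := by simp; ring

/-- the bound for the inverse of a matrix -/
lemma inv_bound {d : ℕ} (k : ℕ) (M : Matrix (Fin d) (Fin d) ℝ)
    (hdet : 1 / ((k : ℝ) + 1) ≤ |M.det|) (hM : ∀ i j, |M i j| ≤ (k : ℝ) + 1)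
    (y : Fin d → ℝ) :
    ‖M⁻¹.mulVec y‖ ≤ (d * (d.factorial * ((k : ℝ) + 1) ^ (d + 1)) + 1) * ‖y‖ := by
  have hk : (0 : ℝ) < (k : ℝ) + 1 := by positivity
  have hk1 : (1 : ℝ) ≤ (k : ℝ) + 1 := by
    have : (0 : ℝ) ≤ k := Nat.cast_nonneg k
    linarith
  have hd0 : 0 < |M.det| := lt_of_lt_of_le (by positivity) hdet
  have hadj : ∀ i j, |M.adjugate i j| ≤ d.factorial * ((k : ℝ) + 1) ^ d := by
    intro i j
    rw [Matrix.adjugate_apply]
    have h := Matrix.det_le (A := M.updateRow j (Pi.single i 1)) (abv := AbsoluteValue.abs)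
      (x := (k : ℝ) + 1) (by
        intro a b
        by_cases hab : a = j
        · subst hab
          rw [Matrix.updateRow_self]
          by_cases hb : b = i
          · subst hb
            simp only [Pi.single_eq_same, AbsoluteValue.abs_apply, abs_one]
            exact hk1
          · rw [Pi.single_eq_of_ne hb]
            simp only [map_zero]
            exact hk.le
        · rw [Matrix.updateRow_ne hab]
          exact hM a b)
    simpa [nsmul_eq_mul, AbsoluteValue.abs_apply] using h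
  have hent : ∀ i j, |M⁻¹ i j| ≤ d.factorial * ((k : ℝ) + 1) ^ (d + 1) := by
    intro i j
    rw [Matrix.inv_def, Matrix.smul_apply, smul_eq_mul, abs_mul, Ring.inverse_eq_inv', abs_inv]
    have h1 : |M.det|⁻¹ ≤ (k : ℝ) + 1 := by
      rw [inv_le_comm₀ hd0 hk]
      simpa using hdet
    calc |M.det|⁻¹ * |M.adjugate i j| ≤ ((k : ℝ) + 1) * (d.factorial * ((k : ℝ) + 1) ^ d) :=
          mul_le_mul h1 (hadj i j) (abs_nonneg _) hk.le
      _ = d.factorial * ((k : ℝ) + 1) ^ (d + 1) := by ring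
  have ha : (0 : ℝ) ≤ d.factorial * ((k : ℝ) + 1) ^ (d + 1) := by positivity
  rw [pi_norm_le_iff_of_nonneg (by positivity)]
  intro i
  rw [Real.norm_eq_abs, Matrix.mulVec, dotProduct]
  calc |∑ j, M⁻¹ i j * y j| ≤ ∑ j, |M⁻¹ i j * y j| := Finset.abs_sum_le_sum_abs _ _
    _ ≤ ∑ _j : Fin d, (d.factorial * ((k : ℝ) + 1) ^ (d + 1)) * ‖y‖ := by
        refine Finset.sum_le_sum fun j _ => ?_
        rw [abs_mul]
        exact mul_le_mul (hent i j) (by simpa using norm_le_pi_norm y j) (abs_nonneg _) ha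
    _ = (d * (d.factorial * ((k : ℝ) + 1) ^ (d + 1))) * ‖y‖ := by simp; ring
    _ ≤ _ := by
        have := norm_nonneg y
        nlinarith

/-- Piece B. A quantitative inverse function theorem. -/
theorem ift (d k : ℕ) : ∃ r η : ℝ, 0 < r ∧ r ≤ 1 ∧ 0 < η ∧
    ∀ (g h : (Fin d → ℝ) → Fin d → ℝ) (g' h' : (Fin d → ℝ) → (Fin d → ℝ) →L[ℝ] (Fin d → ℝ))
      (x : Fin d → ℝ), g x = 0 → (∀ y, HasFDerivAt g (g' y) y) → (∀ y, HasFDerivAt h (h' y) y) →
      1 / ((k : ℝ) + 1) ≤ |(Matrix.of fun i j => g' x (Pi.single j 1) i).det| →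
      (∀ i j, |g' x (Pi.single j 1) i| ≤ (k : ℝ) + 1) →
      (∀ y ∈ Metric.closedBall x 1, ∀ i j,
        |g' y (Pi.single j 1) i - g' x (Pi.single j 1) i| ≤ ((k : ℝ) + 1) * ‖y - x‖) →
      (∀ y ∈ Metric.closedBall x 1, ∀ i, |h y i - g y i| ≤ η) →
      (∀ y ∈ Metric.closedBall x 1, ∀ i j,
        |h' y (Pi.single j 1) i - g' y (Pi.single j 1) i| ≤ η) →
      (∃ y, ‖y - x‖ ≤ r / 4 ∧ h y = 0) ∧ ∀ x', ‖x' - x‖ ≤ r → g x' = 0 → x' = x := by
  obtain ⟨K, hKdef⟩ : ∃ K : ℝ, K = d * (d.factorial * ((k : ℝ) + 1) ^ (d + 1)) + 1 := ⟨_, rfl⟩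
  have hK1 : 1 ≤ K := by
    rw [hKdef]
    have : (0 : ℝ) ≤ d * (d.factorial * ((k : ℝ) + 1) ^ (d + 1)) := by positivity
    linarith
  have hK0 : 0 < K := by linarith
  have hk : (0 : ℝ) < (k : ℝ) + 1 := by positivity
  have hd1 : (0 : ℝ) < (d : ℝ) + 1 := by positivity
  obtain ⟨r, hrdef⟩ : ∃ r : ℝ, r = min 1 (1 / (4 * K * (d + 1) * (k + 1))) := ⟨_, rfl⟩
  have hr0 : 0 < r := by rw [hrdef]; positivity
  have hr1 : r ≤ 1 := by rw [hrdef]; exact min_le_left _ _
  have hr2 : r ≤ 1 / (4 * K * (d + 1) * (k + 1)) := by rw [hrdef]; exact min_le_right _ _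
  have hr3 : (d : ℝ) * ((k + 1) * r) ≤ 1 / (4 * K) := by
    have h1 : (d : ℝ) * ((k + 1) * r) ≤ (d + 1) * ((k + 1) * (1 / (4 * K * (d + 1) * (k + 1)))) := by
      apply mul_le_mul (by linarith) (mul_le_mul_of_nonneg_left hr2 hk.le) (by positivity) hd1.le
    refine h1.trans (le_of_eq ?_)
    field_simp
  obtain ⟨η, hηdef⟩ : ∃ η : ℝ, η = r / (8 * K * (d + 1)) := ⟨_, rfl⟩
  have hη0 : 0 < η := by rw [hηdef]; positivity
  have hη1 : η ≤ r / (8 * K) := by
    rw [hηdef]
    apply div_le_div_of_nonneg_left hr0.le (by positivity)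
    have : (0 : ℝ) ≤ 8 * K * d := by positivity
    nlinarith
  have hη2 : (d : ℝ) * η ≤ 1 / (8 * K) := by
    rw [hηdef]
    have h1 : (d : ℝ) * (r / (8 * K * (d + 1))) ≤ (d + 1) * (1 / (8 * K * (d + 1))) := by
      apply mul_le_mul (by linarith) _ (by positivity) hd1.le
      exact div_le_div_of_nonneg_right hr1 (by positivity)
    refine h1.trans (le_of_eq ?_)
    field_simp
  refine ⟨r, η, hr0, hr1, hη0, ?_⟩
  intro g h g' h' x hgx hg hh hdet hJ hlip hhg hhg'
  obtain ⟨J, hJdef⟩ : ∃ J : (Fin d → ℝ) →L[ℝ] (Fin d → ℝ), J = g' x := ⟨_, rfl⟩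
  obtain ⟨M, hMdef⟩ : ∃ M : Matrix (Fin d) (Fin d) ℝ,
    M = Matrix.of fun i j => g' x (Pi.single j 1) i := ⟨_, rfl⟩
  rw [← hMdef] at hdet
  have hM : ∀ i j, |M i j| ≤ (k : ℝ) + 1 := by
    intro i j
    rw [hMdef]
    exact hJ i j
  have hJM : ∀ w, J w = M.mulVec w := by
    intro w
    ext i
    rw [hJdef, lin_eq, hMdef]
    rfl
  have hunit : IsUnit M.det := by
    rw [isUnit_iff_ne_zero]
    intro h0
    rw [h0, abs_zero] at hdet
    have : (0 : ℝ) < 1 / ((k : ℝ) + 1) := by positivity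
    linarith
  have hinv : ∀ y, ‖M⁻¹.mulVec y‖ ≤ K * ‖y‖ := fun y => by
    rw [hKdef]; exact inv_bound k M hdet hM y
  have hlow : ∀ w, ‖w‖ ≤ K * ‖J w‖ := by
    intro w
    have h1 : M⁻¹.mulVec (J w) = w := by
      rw [hJM, Matrix.mulVec_mulVec, Matrix.nonsing_inv_mul M hunit, Matrix.one_mulVec]
    have h2 := hinv (J w)
    rwa [h1] at h2
  have hsub : closedBall x r ⊆ closedBall x 1 := closedBall_subset_closedBall hr1
  have hg'J : ∀ y ∈ closedBall x r, ‖g' y - J‖ ≤ 1 / (4 * K) := by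
    intro y hy
    refine (norm_le_of_entries _ (a := (k + 1) * r) (by positivity) ?_).trans hr3
    intro i j
    rw [ContinuousLinearMap.sub_apply, Pi.sub_apply, hJdef]
    refine (hlip y (hsub hy) i j).trans ?_
    apply mul_le_mul_of_nonneg_left _ hk.le
    rw [← dist_eq_norm]
    exact mem_closedBall.1 hy
  have hh'J : ∀ y ∈ closedBall x r, ‖h' y - J‖ ≤ 1 / (2 * K) := by
    intro y hy
    have h1 : ‖h' y - g' y‖ ≤ d * η := by
      refine norm_le_of_entries _ hη0.le ?_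
      intro i j
      rw [ContinuousLinearMap.sub_apply, Pi.sub_apply]
      exact hhg' y (hsub hy) i j
    have h2 : ‖h' y - J‖ ≤ ‖h' y - g' y‖ + ‖g' y - J‖ := by
      have : h' y - J = (h' y - g' y) + (g' y - J) := by abel
      rw [this]
      exact norm_add_le _ _
    have h3 : (1 : ℝ) / (8 * K) + 1 / (4 * K) ≤ 1 / (2 * K) := by
      have : (1 : ℝ) / (8 * K) + 1 / (4 * K) = 3 / (8 * K) := by field_simp; ring
      rw [this, div_le_div_iff₀ (by positivity) (by positivity)]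
      nlinarith
    linarith [hg'J y hy]
  constructor
  · have happ : ApproximatesLinearOn h J (closedBall x r) ⟨1 / (2 * K), by positivity⟩ := by
      intro y hy z hz
      exact (convex_closedBall x r).norm_image_sub_le_of_norm_hasFDerivWithin_le'
        (fun w _ => (hh w).hasFDerivWithinAt) hh'J hz hy
    let R : J.NonlinearRightInverse :=
      { toFun := fun y => M⁻¹.mulVec y
        nnnorm := ⟨K, hK0.le⟩
        bound' := fun y => hinv y
        right_inv' := fun y => by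
          rw [hJM, Matrix.mulVec_mulVec, Matrix.mul_nonsing_inv M hunit, Matrix.one_mulVec] }
    have hsurj := happ.surjOn_closedBall_of_nonlinearRightInverse R (ε := r / 4) (b := x)
      (by positivity) (closedBall_subset_closedBall (by linarith))
    have hmem : (0 : Fin d → ℝ) ∈ closedBall (h x)
        ((((R.nnnorm : ℝ))⁻¹ - (⟨1 / (2 * K), by positivity⟩ : NNReal)) * (r / 4)) := by
      rw [mem_closedBall, dist_comm, dist_zero_right]
      have h1 : ‖h x‖ ≤ η := by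
        rw [pi_norm_le_iff_of_nonneg hη0.le]
        intro i
        have := hhg x (mem_closedBall_self zero_le_one) i
        rwa [hgx, Pi.zero_apply, sub_zero] at this
      refine h1.trans (hη1.trans (le_of_eq ?_))
      show r / (8 * K) = (K⁻¹ - 1 / (2 * K)) * (r / 4)
      field_simp
      ring
    obtain ⟨y, hy, hy0⟩ := hsurj hmem
    refine ⟨y, ?_, hy0⟩
    rw [← dist_eq_norm]
    exact mem_closedBall.1 hy
  · intro x' hx' hgx'
    have hmem : x' ∈ closedBall x r := by rw [mem_closedBall, dist_eq_norm]; exact hx'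
    have h1 := (convex_closedBall x r).norm_image_sub_le_of_norm_hasFDerivWithin_le'
      (fun w _ => (hg w).hasFDerivWithinAt) hg'J (mem_closedBall_self hr0.le) hmem
    rw [hgx, hgx', sub_zero, zero_sub, norm_neg] at h1
    have h2 := hlow (x' - x)
    have h3 : K * ‖J (x' - x)‖ ≤ K * (1 / (4 * K) * ‖x' - x‖) := mul_le_mul_of_nonneg_left h1 hK0.le
    have h4 : K * (1 / (4 * K) * ‖x' - x‖) = ‖x' - x‖ / 4 := by field_simp
    have h5 : ‖x' - x‖ = 0 := by
      have := norm_nonneg (x' - x)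
      linarith
    exact sub_eq_zero.1 (norm_eq_zero.1 h5)

end Pool.Agent.K6.H16.CP
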