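import Pool.Agent.K6.H16.QS.B

/-!
Critical points of stationary waves: real Taylor polynomials.
-/

set_option autoImplicit false
open MeasureTheory Filter Topology Metric
open scoped ENNReal Nat ContDiff

namespace Pool.Agent.K6.H16.CP

open Pool.Agent.Y139.SW Pool.Agent.K6.H16.QS

noncomputable section

variable {d : ℕ}

/-- the point of `ℝ^d` with coordinates `y` -/
def tp (y : Fin d → ℝ) : E d := WithLp.toLp 2 y

lemma tp_cont : Continuous (tp (d := d)) := by
  unfold tp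
  fun_prop

lemma tp_add (y z : Fin d → ℝ) : tp (y + z) = tp y + tp z := rfl

lemma tp_smul (c : ℝ) (z : Fin d → ℝ) : tp (c • z) = c • tp z := rfl

lemma tp_ap (y : Fin d → ℝ) (i : Fin d) : tp y i = y i := rfl

/-- the homogeneous parts of the Taylor series -/
def Rk : ℕ → (E d → ℝ) → (Fin d → ℝ) → ℝ
  | 0, f, _ => f 0
  | k + 1, f, y => ∑ j, y j * Rk k (D j f) y

lemma Rk_io (k : ℕ) : ∀ (f : E d → ℝ) (y : Fin d → ℝ), Pk k f (io (tp y)) = (Rk k f y : ℂ) := by
  induction k with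
  | zero => intro f y; rfl
  | succ k ih =>
    intro f y
    show ∑ j, io (tp y) j * Pk k (D j f) (io (tp y)) = ((∑ j, y j * Rk k (D j f) y : ℝ) : ℂ)
    push_cast
    refine Finset.sum_congr rfl fun j _ => ?_
    rw [ih]
    rfl

/-- monomials of degree at most `n` -/
def Mo (d n : ℕ) : Set ((Fin d → ℝ) → ℝ) :=
  {f | ∃ b : Fin d → ℕ, ∑ j, b j ≤ n ∧ f = fun x => ∏ j, x j ^ b j}

lemma Mo_mono {m n : ℕ} (h : m ≤ n) : Submodule.span ℝ (Mo d m) ≤ Submodule.span ℝ (Mo d n) := by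
  refine Submodule.span_mono ?_
  rintro f ⟨b, hb, rfl⟩
  exact ⟨b, hb.trans h, rfl⟩

lemma Mo_mul {n : ℕ} (j : Fin d) {f : (Fin d → ℝ) → ℝ} (h : f ∈ Submodule.span ℝ (Mo d n)) :
    (fun y => y j * f y) ∈ Submodule.span ℝ (Mo d (n + 1)) := by
  induction h using Submodule.span_induction with
  | mem f hf =>
    obtain ⟨b, hb, rfl⟩ := hf
    refine Submodule.subset_span ⟨b + Pi.single j 1, ?_, ?_⟩
    · simp only [Pi.add_apply, Finset.sum_add_distrib]
      rw [Finset.sum_pi_single']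
      simp only [Finset.mem_univ, if_true]
      omega
    · funext y
      simp only [Pi.add_apply, pow_add, Finset.prod_mul_distrib]
      have : ∏ i, y i ^ (Pi.single j 1 : Fin d → ℕ) i = y j := by
        rw [Finset.prod_eq_single j]
        · simp
        · intro i _ hi
          simp [hi]
        · intro h
          exact absurd (Finset.mem_univ j) h
      rw [this]
      ring
  | zero =>
    have : (fun y : Fin d → ℝ => y j * (0 : (Fin d → ℝ) → ℝ) y) = 0 := by
      funext y; simp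
    rw [this]
    exact Submodule.zero_mem _
  | add f g _ _ hf hg =>
    have : (fun y : Fin d → ℝ => y j * (f + g) y) = (fun y => y j * f y) + fun y => y j * g y := by
      funext y; simp [mul_add]
    rw [this]
    exact Submodule.add_mem _ hf hg
  | smul a f _ hf =>
    have : (fun y : Fin d → ℝ => y j * (a • f) y) = a • fun y => y j * f y := by
      funext y
      simp only [Pi.smul_apply, smul_eq_mul]
      ring
    rw [this]
    exact Submodule.smul_mem _ _ hf

lemma Rk_mem (k : ℕ) : ∀ f : E d → ℝ, Rk k f ∈ Submodule.span ℝ (Mo d k) := by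
  induction k with
  | zero =>
    intro f
    have : Rk 0 f = (f 0) • fun x : Fin d → ℝ => ∏ j, x j ^ (0 : Fin d → ℕ) j := by
      funext y
      simp [Rk]
    rw [this]
    exact Submodule.smul_mem _ _ (Submodule.subset_span ⟨0, by simp, rfl⟩)
  | succ k ih =>
    intro f
    have : Rk (k + 1) f = ∑ j, fun y : Fin d → ℝ => y j * Rk k (D j f) y := by
      funext y
      rw [Finset.sum_apply]
      rfl
    rw [this]
    exact Submodule.sum_mem _ fun j _ => Mo_mul j (ih _)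

/-- the Taylor polynomial with `N` terms -/
def TS (N : ℕ) (f : E d → ℝ) (y : Fin d → ℝ) : ℝ := ∑ k ∈ Finset.range N, Rk k f y / k !

lemma TS_mem (n : ℕ) (f : E d → ℝ) : TS (n + 1) f ∈ Submodule.span ℝ (Mo d n) := by
  have : TS (n + 1) f = ∑ k ∈ Finset.range (n + 1), ((k ! : ℝ)⁻¹) • Rk k f := by
    funext y
    rw [Finset.sum_apply]
    refine Finset.sum_congr rfl fun k _ => ?_
    simp only [Pi.smul_apply, smul_eq_mul]
    rw [div_eq_inv_mul]
  rw [this]
  refine Submodule.sum_mem _ fun k hk => Submodule.smul_mem _ _ ?_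
  exact Mo_mono (by have := Finset.mem_range.1 hk; omega) (Rk_mem k f)

lemma Rk_diff (k : ℕ) : ∀ f : E d → ℝ, Differentiable ℝ (Rk k f) := by
  induction k with
  | zero => intro f; exact differentiable_const _
  | succ k ih =>
    intro f
    show Differentiable ℝ fun y : Fin d → ℝ => ∑ j, y j * Rk k (D j f) y
    exact Differentiable.fun_sum fun j _ => (differentiable_apply j).mul (ih _)

lemma TS_diff (N : ℕ) (f : E d → ℝ) : Differentiable ℝ (TS N f) := by
  unfold TS
  refine Differentiable.fun_sum fun k _ => ?_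
  simp only [div_eq_mul_inv]
  exact (Rk_diff k f).mul_const _

lemma Rk_der (k : ℕ) {f : E d → ℝ} (hf : ContDiff ℝ ∞ f) (y w : Fin d → ℝ) (x : ℝ) :
    HasDerivAt (fun x : ℝ => Rk (k + 1) f (y + x • w))
      ((k + 1) * ∑ j, w j * Rk k (D j f) (y + x • w)) x := by
  have h := (Pk_der k f hf (io (tp y)) (io (tp w)) x).real_of_complex
  have e : ∀ x : ℝ, io (tp y) + (x : ℂ) • io (tp w) = io (tp (y + x • w)) := by
    intro x
    rw [tp_add, tp_smul, io_add, io_smul]
  have e1 : (fun x : ℝ => (Pk (k + 1) f (io (tp y) + (x : ℂ) • io (tp w))).re) =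
      fun x : ℝ => Rk (k + 1) f (y + x • w) := by
    funext x
    rw [e, Rk_io, Complex.ofReal_re]
  have e2 : (((k : ℂ) + 1) * ∑ j, io (tp w) j * Pk k (D j f) (io (tp y) + (x : ℂ) • io (tp w))).re =
      (k + 1) * ∑ j, w j * Rk k (D j f) (y + x • w) := by
    have : (((k : ℂ) + 1) * ∑ j, io (tp w) j * Pk k (D j f) (io (tp y) + (x : ℂ) • io (tp w))) =
        (((k + 1) * ∑ j, w j * Rk k (D j f) (y + x • w) : ℝ) : ℂ) := by
      push_cast
      congr 1
      refine Finset.sum_congr rfl fun j _ => ?_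
      rw [e, Rk_io]
      rfl
    rw [this, Complex.ofReal_re]
  rw [e1, e2] at h
  exact h

lemma TS_der (N : ℕ) {f : E d → ℝ} (hf : ContDiff ℝ ∞ f) (y w : Fin d → ℝ) (x : ℝ) :
    HasDerivAt (fun x : ℝ => TS (N + 1) f (y + x • w)) (∑ j, w j * TS N (D j f) (y + x • w)) x := by
  have h : HasDerivAt (fun x : ℝ => ∑ k ∈ Finset.range N, Rk (k + 1) f (y + x • w) / (k + 1)! +
      Rk 0 f (y + x • w) / 0 !)
      (∑ k ∈ Finset.range N, ((k + 1) * ∑ j, w j * Rk k (D j f) (y + x • w)) / (k + 1)! + 0) x := by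
    refine HasDerivAt.add ?_ ?_
    · exact HasDerivAt.fun_sum fun k _ => (Rk_der k hf y w x).div_const _
    · show HasDerivAt (fun _ : ℝ => f 0 / ((0 ! : ℕ) : ℝ)) 0 x
      exact hasDerivAt_const _ _
  have e1 : (fun x : ℝ => TS (N + 1) f (y + x • w)) =
      fun x : ℝ => ∑ k ∈ Finset.range N, Rk (k + 1) f (y + x • w) / (k + 1)! +
      Rk 0 f (y + x • w) / 0 ! := by
    funext x
    unfold TS
    rw [Finset.sum_range_succ']
  rw [e1]
  refine h.congr_deriv ?_
  rw [add_zero]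
  unfold TS
  simp only [Finset.mul_sum]
  rw [Finset.sum_comm]
  refine Finset.sum_congr rfl fun k _ => ?_
  rw [Finset.sum_div]
  refine Finset.sum_congr rfl fun j _ => ?_
  rw [Nat.factorial_succ]
  have h2 : ((k ! : ℕ) : ℝ) ≠ 0 := by exact_mod_cast (Nat.factorial_pos k).ne'
  have h3 : (k : ℝ) + 1 ≠ 0 := by positivity
  push_cast
  field_simp

/-- the tail of the majorant -/
def Tl (N : ℕ) (r : ℝ) (f : E d → ℝ) : ℝ≥0∞ :=
  ∑' k : ℕ, ENNReal.ofReal (Mk (k + N) f * r ^ (k + N) / (k + N)!)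

lemma io_norm (y : Fin d → ℝ) : ‖io (tp y)‖ = ‖y‖ := by
  unfold io
  rw [Pi.norm_def, Pi.norm_def]
  congr 1
  refine Finset.sup_congr rfl fun i _ => ?_
  show ‖((y i : ℝ) : ℂ)‖₊ = ‖y i‖₊
  simp

lemma TS_rem {f : E d → ℝ} (h : Sm f) (h' : ∀ x : E d, PHI f (io x) = (f x : ℂ)) (N : ℕ)
    {r : ℝ} {y : Fin d → ℝ} (hy : ‖y‖ ≤ r) : ‖f (tp y) - TS N f y‖ₑ ≤ Tl N r f := by
  have s1 := h.hasSum (io (tp y))
  rw [h'] at s1
  have s2 := (hasSum_nat_add_iff' N).2 s1
  have e : ((f (tp y) : ℝ) : ℂ) - ∑ k ∈ Finset.range N, Pk k f (io (tp y)) / (k ! : ℂ) =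
      ((f (tp y) - TS N f y : ℝ) : ℂ) := by
    unfold TS
    push_cast
    congr 1
    refine Finset.sum_congr rfl fun k _ => ?_
    rw [Rk_io]
  rw [e] at s2
  have e3 : ‖f (tp y) - TS N f y‖ₑ = ‖((f (tp y) - TS N f y : ℝ) : ℂ)‖ₑ := by
    rw [← ofReal_norm, ← ofReal_norm, Complex.norm_real]
  rw [e3, ← s2.tsum_eq]
  refine enorm_tsum_le_tsum_enorm.trans (ENNReal.tsum_le_tsum fun k => ?_)
  rw [← ofReal_norm]
  refine ENNReal.ofReal_le_ofReal ?_
  exact Pk_bd f (k + N) _ (by rw [io_norm]; exact hy)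

variable {S : Type*} [MeasurableSpace S] {P : Measure S} {τ : E d → S → S}

lemma Tl_meas {G : S → E d → ℝ} (h : SF τ G) (N : ℕ) (r : ℝ) :
    Measurable fun s => Tl N r (G s) := by
  unfold Tl
  exact Measurable.tsum fun k => (((Mk_meas _ h).mul_const _).div_const _).ennreal_ofReal

lemma Tl_int [IsProbabilityMeasure P] (hτ : ∀ x, MeasurePreserving (τ x) P P)
    {G : S → E d → ℝ} (W : Wave P τ G) {m : ℝ} (hm : ∫ s, G s 0 ^ 2 ∂P ≤ m) {r : ℝ}
    (hr : 0 ≤ r) (N : ℕ) : ∫⁻ s, Tl N r (G s) ∂P ≤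
      ENNReal.ofReal ((1 + m) * Real.exp (Real.exp 1 * (d * r) - N)) := by
  have m0 : 0 ≤ m := le_trans (integral_nonneg fun s => sq_nonneg _) hm
  unfold Tl
  rw [lintegral_tsum fun k =>
    (((Mk_meas _ W.sf).mul_const _).div_const _).ennreal_ofReal.aemeasurable]
  have e : ∀ (k : ℕ) (s : S), ENNReal.ofReal (Mk (k + N) (G s) * r ^ (k + N) / (k + N)!) =
      ENNReal.ofReal (Mk (k + N) (G s)) * ENNReal.ofReal (r ^ (k + N) / (k + N)!) := by
    intro k s
    rw [← ENNReal.ofReal_mul (Mk_nonneg _ _), mul_div_assoc]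
  simp only [e]
  have b : ∀ k : ℕ, ∫⁻ s, ENNReal.ofReal (Mk (k + N) (G s)) *
      ENNReal.ofReal (r ^ (k + N) / (k + N)!) ∂P ≤
      ENNReal.ofReal ((1 + m) * Real.exp (-N)) *
        ENNReal.ofReal ((Real.exp 1 * (d * r)) ^ (k + N) / (k + N)!) := by
    intro k
    rw [lintegral_mul_const _ (Mk_meas _ W.sf).ennreal_ofReal]
    refine (mul_le_mul_left (Mk_int hτ m (k + N) W hm) _).trans ?_
    have : (d : ℝ≥0∞) ^ (k + N) = ENNReal.ofReal ((d : ℝ) ^ (k + N)) := by
      rw [ENNReal.ofReal_pow (Nat.cast_nonneg _), ENNReal.ofReal_natCast]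
    rw [this, ← ENNReal.ofReal_mul (by positivity), ← ENNReal.ofReal_mul (by positivity),
      ← ENNReal.ofReal_mul (by positivity)]
    refine ENNReal.ofReal_le_ofReal ?_
    have h1 : (1 : ℝ) ≤ Real.exp (-N) * Real.exp 1 ^ (k + N) := by
      rw [← Real.exp_nat_mul, ← Real.exp_add]
      refine Real.one_le_exp ?_
      push_cast
      linarith [(Nat.cast_nonneg k : (0 : ℝ) ≤ k)]
    calc (1 + m) * (d : ℝ) ^ (k + N) * (r ^ (k + N) / (k + N)!)
        = (1 + m) * (d : ℝ) ^ (k + N) * (r ^ (k + N) / (k + N)!) * 1 := by ring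
      _ ≤ (1 + m) * (d : ℝ) ^ (k + N) * (r ^ (k + N) / (k + N)!) *
          (Real.exp (-N) * Real.exp 1 ^ (k + N)) := by
          refine mul_le_mul_of_nonneg_left h1 (by positivity)
      _ = _ := by
          rw [mul_pow, mul_pow]
          ring
  refine (ENNReal.tsum_le_tsum b).trans ?_
  rw [ENNReal.tsum_mul_left]
  have c : ∑' k : ℕ, ENNReal.ofReal ((Real.exp 1 * (d * r)) ^ (k + N) / (k + N)!) ≤
      ENNReal.ofReal (Real.exp (Real.exp 1 * (d * r))) := by
    rw [← LC.exp_tsum (by positivity)]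
    exact ENNReal.tsum_comp_le_tsum_of_injective (add_left_injective N)
      (fun k => ENNReal.ofReal ((Real.exp 1 * (d * r)) ^ k / (k !)))
  refine (mul_le_mul_right c _).trans (le_of_eq ?_)
  rw [← ENNReal.ofReal_mul (by positivity), mul_assoc, ← Real.exp_add]
  congr 3
  ring

end

end Pool.Agent.K6.H16.CP
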