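import Pool.Agent.K6.H16.CP.Ta
import Pool.Agent.K6.H16.CP.PieceA
import Pool.Agent.K6.H16.CP.PieceB

/-!
Critical points of stationary waves: counting nondegenerate zeros with polynomials.
-/

set_option autoImplicit false
open MeasureTheory Filter Topology Metric
open scoped ENNReal Nat ContDiff

namespace Pool.Agent.K6.H16.CP

open Pool.Agent.Y139.SW Pool.Agent.K6.H16.QS

noncomputable section

variable {d : ℕ}

/-- the matrix of the first derivatives -/
def Jc (g : Fin d → E d → ℝ) (y : Fin d → ℝ) : Matrix (Fin d) (Fin d) ℝ :=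
  Matrix.of fun i j => D j (g i) (tp y)

/-- quantitatively nondegenerate zeros -/
def Good (k : ℕ) (g : Fin d → E d → ℝ) (y : Fin d → ℝ) : Prop :=
  (∀ i, g i (tp y) = 0) ∧ 1 / ((k : ℝ) + 1) ≤ |(Jc g y).det| ∧
    (∀ i j, |D j (g i) (tp y)| ≤ (k : ℝ) + 1) ∧
    ∀ z : Fin d → ℝ, ‖z‖ ≤ 1 → ∀ i j,
      |D j (g i) (tp (y + z)) - D j (g i) (tp y)| ≤ ((k : ℝ) + 1) * ‖z‖

/-- `tp` as a linear map -/
def tpL (d : ℕ) : (Fin d → ℝ) →L[ℝ] E d :=
  ((EuclideanSpace.equiv (Fin d) ℝ).symm : (Fin d → ℝ) →L[ℝ] E d)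

lemma tpL_ap (y : Fin d → ℝ) : tpL d y = tp y := rfl

lemma tp_single (j : Fin d) : tp (Pi.single j (1 : ℝ)) = EuclideanSpace.single j (1 : ℝ) := by
  ext i
  rw [tp_ap]
  simp [Pi.single_apply]

/-- the derivative of the field -/
def vd (g : Fin d → E d → ℝ) (y : Fin d → ℝ) : (Fin d → ℝ) →L[ℝ] (Fin d → ℝ) :=
  ContinuousLinearMap.pi fun i => (fderiv ℝ (g i) (tp y)).comp (tpL d)

lemma vd_ap (g : Fin d → E d → ℝ) (y : Fin d → ℝ) (i j : Fin d) :
    vd g y (Pi.single j 1) i = D j (g i) (tp y) := by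
  unfold vd D
  rw [ContinuousLinearMap.pi_apply, ContinuousLinearMap.comp_apply, tpL_ap, tp_single]

lemma vd_has {g : Fin d → E d → ℝ} (hg : ∀ i, ContDiff ℝ ∞ (g i)) (y : Fin d → ℝ) :
    HasFDerivAt (fun y i => g i (tp y)) (vd g y) y := by
  unfold vd
  rw [hasFDerivAt_pi]
  intro i
  have h1 : HasFDerivAt (fun y : Fin d → ℝ => tp y) (tpL d) y := (tpL d).hasFDerivAt
  exact (sdiff (hg i) (tp y)).hasFDerivAt.comp y h1

/-- the approximating field -/
def hh (n : ℕ) (ε : ℝ) (g : Fin d → E d → ℝ) (y : Fin d → ℝ) (i : Fin d) : ℝ :=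
  TS (n + 1) (g i) y + ε * y i ^ (n + 1)

lemma hh_diff (n : ℕ) (ε : ℝ) (g : Fin d → E d → ℝ) : Differentiable ℝ (hh n ε g) := by
  refine differentiable_pi.2 fun i => ?_
  unfold hh
  exact (TS_diff _ _).add (((differentiable_apply i).pow _).const_mul _)

lemma hh_ap (n : ℕ) (ε : ℝ) {g : Fin d → E d → ℝ} (hg : ∀ i, ContDiff ℝ ∞ (g i))
    (y : Fin d → ℝ) (i j : Fin d) :
    fderiv ℝ (hh n ε g) y (Pi.single j 1) i =
      TS n (D j (g i)) y + ε * ((n + 1) * y i ^ n * (Pi.single j (1 : ℝ) : Fin d → ℝ) i) := by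
  obtain ⟨w, hw⟩ : ∃ w : Fin d → ℝ, w = Pi.single j 1 := ⟨_, rfl⟩
  rw [← hw]
  have l1 : HasDerivAt (fun x : ℝ => y + x • w) w 0 := by
    have := ((hasDerivAt_id (0 : ℝ)).smul_const w).const_add y
    simpa using this
  have l2 : HasFDerivAt (hh n ε g) (fderiv ℝ (hh n ε g) y) (y + (0 : ℝ) • w) := by
    rw [zero_smul, add_zero]
    exact (hh_diff n ε g y).hasFDerivAt
  have l3 := hasDerivAt_pi.1 (l2.comp_hasDerivAt 0 l1) i
  have l4 : HasDerivAt (fun x : ℝ => (hh n ε g ∘ fun x : ℝ => y + x • w) x i)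
      (∑ l, w l * TS n (D l (g i)) (y + (0 : ℝ) • w) + ε * ((n + 1) * y i ^ n * w i)) 0 := by
    show HasDerivAt (fun x : ℝ => TS (n + 1) (g i) (y + x • w) + ε * (y + x • w) i ^ (n + 1)) _ 0
    refine HasDerivAt.add (TS_der n (hg i) y w 0) ?_
    have l5 := (hasDerivAt_pi.1 l1 i).pow (n + 1)
    have l6 := l5.const_mul ε
    refine l6.congr_deriv ?_
    simp
  have l7 := l3.unique l4
  rw [l7, zero_smul, add_zero]
  congr 1
  rw [Finset.sum_eq_single j]
  · rw [hw]; simp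
  · intro l _ hl
    rw [hw]; simp [hl]
  · intro h
    exact absurd (Finset.mem_univ j) h

/-- the constants of the inverse function theorem -/
theorem count (d k : ℕ) : ∃ η : ℝ, 0 < η ∧ ∀ (g : Fin d → E d → ℝ), (∀ i, ContDiff ℝ ∞ (g i)) →
    ∀ (n : ℕ) (R : ℝ), 0 ≤ R →
    (∀ y : Fin d → ℝ, ‖y‖ ≤ R + 1 → ∀ i, |g i (tp y) - TS (n + 1) (g i) y| ≤ η / 2) →
    (∀ y : Fin d → ℝ, ‖y‖ ≤ R + 1 → ∀ i j, |D j (g i) (tp y) - TS n (D j (g i)) y| ≤ η / 2) →
    ∀ T : Finset (Fin d → ℝ), (∀ y ∈ T, ‖y‖ ≤ R ∧ Good k g y) → T.card ≤ (n + 1) ^ d := by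
  classical
  obtain ⟨r, η, r0, r1, η0, key⟩ := ift d k
  refine ⟨η, η0, fun g hg n R hR c1 c2 T hT => ?_⟩
  obtain ⟨ε, hε⟩ : ∃ ε : ℝ, ε = η / 2 / ((n + 1) * (R + 1) ^ (n + 1)) := ⟨_, rfl⟩
  have ε0 : 0 < ε := by rw [hε]; positivity
  have e1 : ε * ((n + 1) * (R + 1) ^ (n + 1)) = η / 2 := by
    rw [hε]
    field_simp
  have R1 : (1 : ℝ) ≤ R + 1 := by linarith
  have n1 : (1 : ℝ) ≤ (n : ℝ) + 1 := by linarith [(Nat.cast_nonneg n : (0 : ℝ) ≤ n)]
  have co : ∀ (y : Fin d → ℝ) (i : Fin d), ‖y‖ ≤ R + 1 → |y i| ≤ R + 1 := fun y i h =>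
    (norm_le_pi_norm y i).trans h
  have a1 : ∀ y : Fin d → ℝ, ‖y‖ ≤ R + 1 → ∀ i, |hh n ε g y i - g i (tp y)| ≤ η := by
    intro y hy i
    have h1 := c1 y hy i
    have h2 : |ε * y i ^ (n + 1)| ≤ η / 2 := by
      rw [abs_mul, abs_pow, abs_of_pos ε0, ← e1]
      refine mul_le_mul_of_nonneg_left ?_ ε0.le
      have : |y i| ^ (n + 1) ≤ (R + 1) ^ (n + 1) := pow_le_pow_left₀ (abs_nonneg _) (co y i hy) _
      have h0 : (0 : ℝ) ≤ (R + 1) ^ (n + 1) := by positivity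
      nlinarith
    have : hh n ε g y i - g i (tp y) = -(g i (tp y) - TS (n + 1) (g i) y) + ε * y i ^ (n + 1) := by
      unfold hh
      ring
    rw [this]
    refine (abs_add_le _ _).trans ?_
    rw [abs_neg]
    linarith
  have a2 : ∀ y : Fin d → ℝ, ‖y‖ ≤ R + 1 → ∀ i j,
      |fderiv ℝ (hh n ε g) y (Pi.single j 1) i - vd g y (Pi.single j 1) i| ≤ η := by
    intro y hy i j
    rw [vd_ap, hh_ap n ε hg]
    have h1 := c2 y hy i j
    have h2 : |ε * ((n + 1) * y i ^ n * (Pi.single j (1 : ℝ) : Fin d → ℝ) i)| ≤ η / 2 := by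
      have h3 : |(Pi.single j (1 : ℝ) : Fin d → ℝ) i| ≤ 1 := by
        rw [Pi.single_apply]
        split_ifs <;> simp
      have h4 : |y i| ^ n ≤ (R + 1) ^ (n + 1) :=
        (pow_le_pow_left₀ (abs_nonneg _) (co y i hy) _).trans
          (pow_le_pow_right₀ R1 (Nat.le_succ n))
      rw [abs_mul, abs_mul, abs_mul, abs_pow, abs_of_pos ε0, ← e1, abs_of_pos (by linarith)]
      refine mul_le_mul_of_nonneg_left ?_ ε0.le
      rw [mul_assoc]
      refine mul_le_mul_of_nonneg_left ?_ (by linarith)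
      calc |y i| ^ n * |(Pi.single j (1 : ℝ) : Fin d → ℝ) i| ≤ |y i| ^ n * 1 :=
            mul_le_mul_of_nonneg_left h3 (by positivity)
        _ ≤ _ := by rw [mul_one]; exact h4
    have : TS n (D j (g i)) y + ε * ((n + 1) * y i ^ n * (Pi.single j (1 : ℝ) : Fin d → ℝ) i) -
        D j (g i) (tp y) = -(D j (g i) (tp y) - TS n (D j (g i)) y) +
          ε * ((n + 1) * y i ^ n * (Pi.single j (1 : ℝ) : Fin d → ℝ) i) := by ring
    rw [this]
    refine (abs_add_le _ _).trans ?_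
    rw [abs_neg]
    linarith
  have ap : ∀ x ∈ T, (∃ y, ‖y - x‖ ≤ r / 4 ∧ hh n ε g y = 0) ∧
      ∀ x', ‖x' - x‖ ≤ r → (fun i => g i (tp x')) = 0 → x' = x := by
    intro x hx
    obtain ⟨hxR, z0, dt, db, lp⟩ := hT x hx
    have near : ∀ y ∈ Metric.closedBall x 1, ‖y‖ ≤ R + 1 := by
      intro y hy
      rw [mem_closedBall, dist_eq_norm] at hy
      have : ‖y‖ ≤ ‖x‖ + ‖y - x‖ := by
        have := norm_add_le x (y - x)
        rwa [add_sub_cancel] at this
      linarith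
    refine key (fun y i => g i (tp y)) (hh n ε g) (vd g) (fderiv ℝ (hh n ε g)) x ?_
      (vd_has hg) (fun y => (hh_diff n ε g y).hasFDerivAt) ?_ ?_ ?_ ?_ ?_
    · funext i
      exact z0 i
    · have : (Matrix.of fun i j => vd g x (Pi.single j 1) i) = Jc g x := by
        ext i j
        exact vd_ap g x i j
      rw [this]
      exact dt
    · intro i j
      rw [vd_ap]
      exact db i j
    · intro y hy i j
      rw [vd_ap, vd_ap]
      rw [mem_closedBall, dist_eq_norm] at hy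
      have := lp (y - x) hy i j
      rwa [add_sub_cancel] at this
    · intro y hy i
      exact a1 y (near y hy) i
    · intro y hy i j
      exact a2 y (near y hy) i j
  choose! ph hph1 hph2 using fun x hx => (ap x hx).1
  have inj : Set.InjOn ph T := by
    intro x hx x' hx' e
    refine ((ap x hx).2 x' ?_ ?_).symm
    · have h1 := hph1 x hx
      have h2 := hph1 x' hx'
      rw [← e] at h2
      have : x' - x = (ph x - x) - (ph x - x') := by abel
      rw [this]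
      refine (norm_sub_le _ _).trans ?_
      linarith
    · funext i
      exact (hT x' hx').2.1 i
  rw [← Finset.card_image_of_injOn inj]
  refine zeros_le n (fun i => TS (n + 1) (g i)) (fun i => TS_mem n (g i)) ε0.ne' _ ?_
  intro y hy i
  obtain ⟨x, hx, rfl⟩ := Finset.mem_image.1 hy
  exact congrFun (hph2 x hx) i

end

end Pool.Agent.K6.H16.CP
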