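import Pool.Agent.K6.H16.CP.Tb

/-!
Critical points of stationary waves: measurability and stationarity.
-/

set_option autoImplicit false
open MeasureTheory Filter Topology Metric
open scoped ENNReal Nat ContDiff

namespace Pool.Agent.K6.H16.CP

open Pool.Agent.Y139.SW Pool.Agent.K6.H16.QS

noncomputable section

/-- existence of a solution in a compact set is measurable -/
lemma meas_gen {X S : Type*} [MetricSpace X] [TopologicalSpace.SeparableSpace X]
    [MeasurableSpace S] {K : Set X} (hK : IsCompact K) (ψ : ℕ → S → X → ℝ)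
    (mψ : ∀ l y, Measurable fun s => ψ l s y) (cψ : ∀ l s, Continuous (ψ l s)) :
    MeasurableSet {s | ∃ y ∈ K, ∀ l, ψ l s y ≤ 0} := by
  obtain ⟨D, hD, cD, dD⟩ := TopologicalSpace.IsSeparable.exists_countable_dense_subset
    (TopologicalSpace.IsSeparable.of_separableSpace K)
  have e : {s | ∃ y ∈ K, ∀ l, ψ l s y ≤ 0} =
      ⋂ N : ℕ, ⋃ q ∈ D, ⋂ l ∈ Finset.range (N + 1), {s | ψ l s q < 1 / (N + 1 : ℝ)} := by
    ext s
    simp only [Set.mem_ofPred_eq, Set.mem_iInter, Set.mem_iUnion, exists_prop]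
    constructor
    · rintro ⟨y, hy, h⟩ N
      have o : IsOpen {x : X | ∀ l ∈ Finset.range (N + 1), ψ l s x < 1 / (N + 1 : ℝ)} := by
        have : {x : X | ∀ l ∈ Finset.range (N + 1), ψ l s x < 1 / (N + 1 : ℝ)} =
            ⋂ l ∈ Finset.range (N + 1), {x : X | ψ l s x < 1 / (N + 1 : ℝ)} := by
          ext x
          simp only [Set.mem_ofPred_eq, Set.mem_iInter]
        rw [this]
        exact isOpen_biInter_finset fun l _ => isOpen_lt (cψ l s) continuous_const
      have hy' : y ∈ {x : X | ∀ l ∈ Finset.range (N + 1), ψ l s x < 1 / (N + 1 : ℝ)} :=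
        fun l _ => (h l).trans_lt (by positivity)
      obtain ⟨q, h1, h2⟩ := mem_closure_iff.1 (dD hy) _ o hy'
      exact ⟨q, h2, h1⟩
    · intro h
      choose q hqD hq using h
      obtain ⟨y, hy, f, fm, ft⟩ := hK.tendsto_subseq fun n => hD (hqD n)
      refine ⟨y, hy, fun l => ?_⟩
      have t1 : Tendsto (fun n => ψ l s (q (f n))) atTop (𝓝 (ψ l s y)) :=
        ((cψ l s).tendsto y).comp ft
      have t2 : Tendsto (fun n => 1 / ((f n : ℝ) + 1)) atTop (𝓝 0) :=
        (tendsto_one_div_add_atTop_nhds_zero_nat (𝕜 := ℝ)).comp fm.tendsto_atTop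
      refine le_of_tendsto_of_tendsto t1 t2 ?_
      filter_upwards [fm.tendsto_atTop.eventually_ge_atTop l] with n hn
      exact (hq (f n) l (Finset.mem_range.2 (by omega))).le
  rw [e]
  refine MeasurableSet.iInter fun N => MeasurableSet.biUnion cD fun q _ => ?_
  refine MeasurableSet.biInter (Finset.countable_toSet _) fun l _ => ?_
  exact measurableSet_lt (mψ l q) measurable_const

variable {d : ℕ} {S : Type*} [MeasurableSpace S] {P : Measure S} {τ : E d → S → S}

/-- the fields at `s` -/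
def gs (G : Fin d → S → E d → ℝ) (s : S) : Fin d → E d → ℝ := fun i => G i s

lemma det_meas {G : Fin d → S → E d → ℝ} (W : ∀ i, SF τ (G i)) (y : Fin d → ℝ) :
    Measurable fun s => (Jc (gs G s) y).det := by
  simp only [Matrix.det_apply']
  refine Finset.measurable_fun_sum _ fun σ _ => Measurable.const_mul ?_ _
  refine Finset.measurable_fun_prod _ fun i _ => ?_
  exact ((W (σ i)).der i).meas _

lemma det_cont {g : Fin d → E d → ℝ} (hg : ∀ i, ContDiff ℝ ∞ (g i)) :
    Continuous fun y => (Jc g y).det := by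
  simp only [Matrix.det_apply']
  refine continuous_finsetSum _ fun σ _ => Continuous.mul continuous_const ?_
  refine continuous_finsetProd _ fun i _ => ?_
  exact (D_sm (hg (σ i)) i).continuous.comp tp_cont

/-- the conditions at the point -/
def c0 (k : ℕ) (g : Fin d → E d → ℝ) (y : Fin d → ℝ) : ℝ :=
  ∑ i, |g i (tp y)| + max 0 (1 / ((k : ℝ) + 1) - |(Jc g y).det|) +
    ∑ i, ∑ j, max 0 (|D j (g i) (tp y)| - ((k : ℝ) + 1))

/-- the conditions around the point -/
def c1 (k : ℕ) (z : Fin d → ℝ) (g : Fin d → E d → ℝ) (y : Fin d → ℝ) : ℝ :=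
  ∑ i, ∑ j, max 0 (|D j (g i) (tp (y + z)) - D j (g i) (tp y)| - ((k : ℝ) + 1) * ‖z‖)

omit [MeasurableSpace S] in
lemma c0_iff (k : ℕ) (g : Fin d → E d → ℝ) (y : Fin d → ℝ) : c0 k g y ≤ 0 ↔
    (∀ i, g i (tp y) = 0) ∧ 1 / ((k : ℝ) + 1) ≤ |(Jc g y).det| ∧
      ∀ i j, |D j (g i) (tp y)| ≤ (k : ℝ) + 1 := by
  have n1 : 0 ≤ ∑ i, |g i (tp y)| := Finset.sum_nonneg fun i _ => abs_nonneg _
  have n2 : 0 ≤ max 0 (1 / ((k : ℝ) + 1) - |(Jc g y).det|) := le_max_left _ _
  have n4 : ∀ i, 0 ≤ ∑ j, max 0 (|D j (g i) (tp y)| - ((k : ℝ) + 1)) := fun i =>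
    Finset.sum_nonneg fun j _ => le_max_left _ _
  have n3 : 0 ≤ ∑ i, ∑ j, max 0 (|D j (g i) (tp y)| - ((k : ℝ) + 1)) :=
    Finset.sum_nonneg fun i _ => n4 i
  unfold c0
  constructor
  · intro h
    have h1 : ∑ i, |g i (tp y)| = 0 := by linarith
    have h2 : max 0 (1 / ((k : ℝ) + 1) - |(Jc g y).det|) = 0 := by linarith
    have h3 : ∑ i, ∑ j, max 0 (|D j (g i) (tp y)| - ((k : ℝ) + 1)) = 0 := by linarith
    refine ⟨fun i => ?_, ?_, fun i j => ?_⟩
    · have := (Finset.sum_eq_zero_iff_of_nonneg fun i _ => abs_nonneg _).1 h1 i (Finset.mem_univ i)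
      exact abs_eq_zero.1 this
    · have := le_max_right 0 (1 / ((k : ℝ) + 1) - |(Jc g y).det|)
      linarith
    · have h4 := (Finset.sum_eq_zero_iff_of_nonneg fun i _ => n4 i).1 h3 i (Finset.mem_univ i)
      have h5 := (Finset.sum_eq_zero_iff_of_nonneg fun j _ => le_max_left _ _).1 h4 j
        (Finset.mem_univ j)
      have := le_max_right 0 (|D j (g i) (tp y)| - ((k : ℝ) + 1))
      linarith
  · rintro ⟨h1, h2, h3⟩
    have e1 : ∑ i, |g i (tp y)| = 0 := Finset.sum_eq_zero fun i _ => by rw [h1, abs_zero]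
    have e2 : max 0 (1 / ((k : ℝ) + 1) - |(Jc g y).det|) = 0 := max_eq_left (by linarith)
    have e3 : ∑ i, ∑ j, max 0 (|D j (g i) (tp y)| - ((k : ℝ) + 1)) = 0 :=
      Finset.sum_eq_zero fun i _ => Finset.sum_eq_zero fun j _ =>
        max_eq_left (by linarith [h3 i j])
    rw [e1, e2, e3]
    simp

lemma c1_iff (k : ℕ) (z : Fin d → ℝ) (g : Fin d → E d → ℝ) (y : Fin d → ℝ) : c1 k z g y ≤ 0 ↔
    ∀ i j, |D j (g i) (tp (y + z)) - D j (g i) (tp y)| ≤ ((k : ℝ) + 1) * ‖z‖ := by
  have n4 : ∀ i, 0 ≤ ∑ j, max 0 (|D j (g i) (tp (y + z)) - D j (g i) (tp y)| -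
      ((k : ℝ) + 1) * ‖z‖) := fun i => Finset.sum_nonneg fun j _ => le_max_left _ _
  unfold c1
  constructor
  · intro h i j
    have h3 : ∑ i, ∑ j, max 0 (|D j (g i) (tp (y + z)) - D j (g i) (tp y)| -
      ((k : ℝ) + 1) * ‖z‖) = 0 := le_antisymm h (Finset.sum_nonneg fun i _ => n4 i)
    have h4 := (Finset.sum_eq_zero_iff_of_nonneg fun i _ => n4 i).1 h3 i (Finset.mem_univ i)
    have h5 := (Finset.sum_eq_zero_iff_of_nonneg fun j _ => le_max_left _ _).1 h4 j
      (Finset.mem_univ j)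
    have := le_max_right 0 (|D j (g i) (tp (y + z)) - D j (g i) (tp y)| - ((k : ℝ) + 1) * ‖z‖)
    linarith
  · intro h
    refine le_of_eq (Finset.sum_eq_zero fun i _ => Finset.sum_eq_zero fun j _ => ?_)
    exact max_eq_left (by linarith [h i j])

/-- a dense sequence in the unit ball -/
def zs (d : ℕ) (l : ℕ) : Fin d → ℝ :=
  haveI : Nonempty (closedBall (0 : Fin d → ℝ) 1) := ⟨⟨0, mem_closedBall_self zero_le_one⟩⟩
  (TopologicalSpace.denseSeq (closedBall (0 : Fin d → ℝ) 1) l : Fin d → ℝ)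

lemma zs_mem (l : ℕ) : ‖zs d l‖ ≤ 1 := by
  unfold zs
  exact mem_closedBall_zero_iff.1 (Subtype.coe_prop _)

lemma zs_all (p : (Fin d → ℝ) → Prop) (cp : IsClosed {z | p z}) (h : ∀ l, p (zs d l)) :
    ∀ z : Fin d → ℝ, ‖z‖ ≤ 1 → p z := by
  intro z hz
  haveI : Nonempty (closedBall (0 : Fin d → ℝ) 1) := ⟨⟨0, mem_closedBall_self zero_le_one⟩⟩
  have c : IsClosed {z : closedBall (0 : Fin d → ℝ) 1 | p z} := cp.preimage continuous_subtype_val
  have := (TopologicalSpace.denseRange_denseSeq (closedBall (0 : Fin d → ℝ) 1)).induction_on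
    (p := fun z : closedBall (0 : Fin d → ℝ) 1 => p z) ⟨z, mem_closedBall_zero_iff.2 hz⟩ c
    (fun l => h l)
  exact this

/-- the conditions -/
def cc (k : ℕ) (l : ℕ) (g : Fin d → E d → ℝ) (y : Fin d → ℝ) : ℝ :=
  match l with
  | 0 => c0 k g y
  | l + 1 => c1 k (zs d l) g y

lemma good_iff (k : ℕ) {g : Fin d → E d → ℝ} (hg : ∀ i, ContDiff ℝ ∞ (g i)) (y : Fin d → ℝ) :
    Good k g y ↔ ∀ l, cc k l g y ≤ 0 := by
  constructor
  · rintro ⟨h1, h2, h3, h4⟩ l
    cases l with
    | zero => exact (c0_iff k g y).2 ⟨h1, h2, h3⟩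
    | succ l => exact (c1_iff k (zs d l) g y).2 (h4 _ (zs_mem l))
  · intro h
    obtain ⟨h1, h2, h3⟩ := (c0_iff k g y).1 (h 0)
    refine ⟨h1, h2, h3, ?_⟩
    refine zs_all (fun z => ∀ i j, |D j (g i) (tp (y + z)) - D j (g i) (tp y)| ≤
      ((k : ℝ) + 1) * ‖z‖) ?_ (fun l => (c1_iff k (zs d l) g y).1 (h (l + 1)))
    have : {z : Fin d → ℝ | ∀ i j, |D j (g i) (tp (y + z)) - D j (g i) (tp y)| ≤
      ((k : ℝ) + 1) * ‖z‖} = ⋂ i, ⋂ j, {z : Fin d → ℝ | |D j (g i) (tp (y + z)) -
        D j (g i) (tp y)| ≤ ((k : ℝ) + 1) * ‖z‖} := by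
      ext z
      simp only [Set.mem_ofPred_eq, Set.mem_iInter]
    rw [this]
    refine isClosed_iInter fun i => isClosed_iInter fun j => isClosed_le ?_ ?_
    · have : Continuous fun z : Fin d → ℝ => D j (g i) (tp (y + z)) :=
        (D_sm (hg i) j).continuous.comp (tp_cont.comp (by fun_prop))
      exact (this.sub continuous_const).abs
    · fun_prop

lemma cc_meas {G : Fin d → S → E d → ℝ} (W : ∀ i, SF τ (G i)) (k l : ℕ) (y : Fin d → ℝ) :
    Measurable fun s => cc k l (gs G s) y := by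
  cases l with
  | zero =>
    show Measurable fun s => c0 k (gs G s) y
    unfold c0
    refine Measurable.add (Measurable.add ?_ ?_) ?_
    · refine Finset.measurable_fun_sum _ fun i _ => ?_
      have : Measurable fun s => G i s (tp y) := (W i).meas _
      exact this.abs
    · exact measurable_const.max (measurable_const.sub (det_meas W y).abs)
    · refine Finset.measurable_fun_sum _ fun i _ => Finset.measurable_fun_sum _ fun j _ => ?_
      have : Measurable fun s => D j (G i s) (tp y) := ((W i).der j).meas _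
      exact measurable_const.max (this.abs.sub measurable_const)
  | succ l =>
    show Measurable fun s => c1 k (zs d l) (gs G s) y
    unfold c1
    refine Finset.measurable_fun_sum _ fun i _ => Finset.measurable_fun_sum _ fun j _ => ?_
    have h1 : Measurable fun s => D j (G i s) (tp y) := ((W i).der j).meas _
    have h2 : Measurable fun s => D j (G i s) (tp (y + zs d l)) := ((W i).der j).meas _
    exact measurable_const.max ((h2.sub h1).abs.sub measurable_const)

lemma cc_cont {g : Fin d → E d → ℝ} (hg : ∀ i, ContDiff ℝ ∞ (g i)) (k l : ℕ) :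
    Continuous (cc k l g) := by
  cases l with
  | zero =>
    show Continuous fun y => c0 k g y
    unfold c0
    refine Continuous.add (Continuous.add ?_ ?_) ?_
    · exact continuous_finsetSum _ fun i _ => ((hg i).continuous.comp tp_cont).abs
    · exact continuous_const.max (continuous_const.sub (det_cont hg).abs)
    · refine continuous_finsetSum _ fun i _ => continuous_finsetSum _ fun j _ => ?_
      exact continuous_const.max
        (((D_sm (hg i) j).continuous.comp tp_cont).abs.sub continuous_const)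
  | succ l =>
    show Continuous fun y => c1 k (zs d l) g y
    unfold c1
    refine continuous_finsetSum _ fun i _ => continuous_finsetSum _ fun j _ => ?_
    have h1 : Continuous fun y : Fin d → ℝ => D j (g i) (tp y) :=
      (D_sm (hg i) j).continuous.comp tp_cont
    have h2 : Continuous fun y : Fin d → ℝ => D j (g i) (tp (y + zs d l)) :=
      (D_sm (hg i) j).continuous.comp (tp_cont.comp (by fun_prop))
    exact continuous_const.max ((h2.sub h1).abs.sub continuous_const)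

/-- a cell -/
def Qc (c : Fin d → ℝ) (h : ℝ) : Set (Fin d → ℝ) := {y | ∀ i, c i ≤ y i ∧ y i < c i + h}

/-- the event that a cell contains a good zero -/
def Ht (G : Fin d → S → E d → ℝ) (k : ℕ) (c : Fin d → ℝ) (h : ℝ) : Set S :=
  {s | ∃ y ∈ Qc c h, Good k (gs G s) y}

lemma Ht_meas {G : Fin d → S → E d → ℝ} (W : ∀ i, SF τ (G i)) (k : ℕ) (c : Fin d → ℝ) (h : ℝ) :
    MeasurableSet (Ht G k c h) := by
  have e : Ht G k c h = ⋃ l : ℕ, {s | ∃ y ∈ Set.Icc c (fun i => c i + h - 1 / ((l : ℝ) + 1)),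
      ∀ m, cc k m (gs G s) y ≤ 0} := by
    ext s
    simp only [Ht, Set.mem_ofPred_eq, Set.mem_iUnion]
    have sm : ∀ i, ContDiff ℝ ∞ (gs G s i) := fun i => (W i).smooth s
    constructor
    · rintro ⟨y, hy, hg⟩
      have ev : ∀ᶠ l : ℕ in atTop, ∀ i, 1 / ((l : ℝ) + 1) < c i + h - y i := by
        rw [eventually_all]
        intro i
        exact (tendsto_one_div_add_atTop_nhds_zero_nat (𝕜 := ℝ)).eventually
          (gt_mem_nhds (by linarith [(hy i).2]))
      obtain ⟨l, hl⟩ := ev.exists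
      refine ⟨l, y, ⟨fun i => (hy i).1, fun i => ?_⟩, (good_iff k sm y).1 hg⟩
      have := hl i
      show y i ≤ c i + h - 1 / ((l : ℝ) + 1)
      linarith
    · rintro ⟨l, y, ⟨h1, h2⟩, hg⟩
      refine ⟨y, fun i => ⟨h1 i, ?_⟩, (good_iff k sm y).2 hg⟩
      have h3 : y i ≤ c i + h - 1 / ((l : ℝ) + 1) := h2 i
      have : 0 < 1 / ((l : ℝ) + 1) := by positivity
      linarith
  rw [e]
  exact MeasurableSet.iUnion fun l => meas_gen isCompact_Icc (fun m s y => cc k m (gs G s) y)
    (fun m y => cc_meas W k m y) (fun m s => cc_cont (fun i => (W i).smooth s) k m)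

lemma good_shift {G : Fin d → S → E d → ℝ} (W : ∀ i, SF τ (G i)) (k : ℕ) (v y : Fin d → ℝ)
    (s : S) : Good k (gs G (τ (tp v) s)) y ↔ Good k (gs G s) (y + v) := by
  have e1 : ∀ i z, gs G (τ (tp v) s) i (tp z) = gs G s i (tp (z + v)) := fun i z =>
    (W i).cov _ _ _
  have e2 : ∀ i j z, D j (gs G (τ (tp v) s) i) (tp z) = D j (gs G s i) (tp (z + v)) :=
    fun i j z => ((W i).der j).cov _ _ _
  have e3 : Jc (gs G (τ (tp v) s)) y = Jc (gs G s) (y + v) := by
    ext i j
    exact e2 i j y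
  unfold Good
  simp only [e1, e2, e3]
  have e4 : ∀ z, y + z + v = y + v + z := fun z => by abel
  simp only [e4]

lemma Ht_shift {G : Fin d → S → E d → ℝ} (W : ∀ i, SF τ (G i)) (k : ℕ) (c v : Fin d → ℝ)
    (h : ℝ) : τ (tp v) ⁻¹' Ht G k c h = Ht G k (c + v) h := by
  ext s
  simp only [Ht, Set.mem_preimage, Set.mem_ofPred_eq, good_shift W]
  constructor
  · rintro ⟨y, hy, hg⟩
    refine ⟨y + v, fun i => ?_, hg⟩
    have := hy i
    simp only [Pi.add_apply]
    exact ⟨by linarith, by linarith⟩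
  · rintro ⟨y, hy, hg⟩
    refine ⟨y - v, fun i => ?_, by rwa [sub_add_cancel]⟩
    have := hy i
    simp only [Pi.add_apply, Pi.sub_apply] at this ⊢
    exact ⟨by linarith, by linarith⟩

lemma Ht_eq {G : Fin d → S → E d → ℝ} (hτ : ∀ x, MeasurePreserving (τ x) P P)
    (W : ∀ i, SF τ (G i)) {B : Set S} (mB : MeasurableSet B) (iB : ∀ x, τ x ⁻¹' B = B) (k : ℕ)
    (c : Fin d → ℝ) (h : ℝ) : P (B ∩ Ht G k c h) = P (B ∩ Ht G k 0 h) := by
  have e : B ∩ Ht G k c h = τ (tp c) ⁻¹' (B ∩ Ht G k 0 h) := by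
    rw [Set.preimage_inter, iB, Ht_shift W, zero_add]
  rw [e]
  exact (hτ _).measure_preimage (mB.inter (Ht_meas W k 0 h)).nullMeasurableSet

end

end Pool.Agent.K6.H16.CP
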