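import Pool.Agent.K6.H16.CP.Tc

/-!
Critical points of stationary waves: the probability that a cell contains a nondegenerate zero.
-/

set_option autoImplicit false
open MeasureTheory Filter Topology Metric
open scoped ENNReal Nat ContDiff

namespace Pool.Agent.K6.H16.CP

open Pool.Agent.Y139.SW Pool.Agent.K6.H16.QS

noncomputable section

variable {d : ℕ} {S : Type*} [MeasurableSpace S] {P : Measure S} {τ : E d → S → S}

/-- the corners of the cells of `[-L, L)^d` -/
def cn (m L : ℕ) (a : Fin d → Fin (2 * L * m)) : Fin d → ℝ := fun i => ((a i : ℕ) : ℝ) / m - L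

lemma cn_norm {m L : ℕ} (hm : 0 < m) (a : Fin d → Fin (2 * L * m)) {y : Fin d → ℝ}
    (hy : y ∈ Qc (cn m L a) (1 / m)) : ‖y‖ ≤ L := by
  rw [pi_norm_le_iff_of_nonneg (Nat.cast_nonneg L)]
  intro i
  have m0 : (0 : ℝ) < m := by exact_mod_cast hm
  obtain ⟨h1, h2⟩ := hy i
  unfold cn at h1 h2
  have h3 : (((a i : ℕ) : ℝ) + 1) ≤ 2 * L * m := by
    have := (a i).2
    exact_mod_cast this
  have h4 : ((a i : ℕ) : ℝ) / m + 1 / m ≤ 2 * L := by
    rw [← add_div, div_le_iff₀ m0]
    exact h3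
  have h5 : 0 ≤ ((a i : ℕ) : ℝ) / m := by positivity
  rw [Real.norm_eq_abs, abs_le]
  constructor <;> linarith

lemma cn_inj {m L : ℕ} (hm : 0 < m) (a b : Fin d → Fin (2 * L * m)) {y : Fin d → ℝ}
    (ha : y ∈ Qc (cn m L a) (1 / m)) (hb : y ∈ Qc (cn m L b) (1 / m)) : a = b := by
  have m0 : (0 : ℝ) < m := by exact_mod_cast hm
  have fl : ∀ a : Fin d → Fin (2 * L * m), y ∈ Qc (cn m L a) (1 / m) → ∀ i,
      ⌊(y i + L) * m⌋ = ((a i : ℕ) : ℤ) := by
    intro a ha i
    obtain ⟨h1, h2⟩ := ha i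
    unfold cn at h1 h2
    rw [Int.floor_eq_iff]
    push_cast
    have e1 : ((a i : ℕ) : ℝ) = ((a i : ℕ) : ℝ) / m * m := by field_simp
    have e2 : (1 : ℝ) = 1 / m * m := by field_simp
    constructor
    · rw [e1]
      exact mul_le_mul_of_nonneg_right (by linarith) m0.le
    · calc (y i + L) * m < (((a i : ℕ) : ℝ) / m + 1 / m) * m :=
            mul_lt_mul_of_pos_right (by linarith) m0
        _ = ((a i : ℕ) : ℝ) + 1 := by rw [add_mul, ← e1, ← e2]
  funext i
  have := (fl a ha i).symm.trans (fl b hb i)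
  exact Fin.ext (by exact_mod_cast this)

/-- the total tail -/
def Zt (G : Fin d → S → E d → ℝ) (n : ℕ) (R : ℝ) (s : S) : ℝ≥0∞ :=
  ∑ i, Tl (n + 1) R (G i s) + ∑ i, ∑ j, Tl n R (D j (G i s))

lemma Zt_meas {G : Fin d → S → E d → ℝ} (W : ∀ i, SF τ (G i)) (n : ℕ) (R : ℝ) :
    Measurable (Zt G n R) :=
  (Finset.measurable_fun_sum _ fun i _ => Tl_meas (W i) _ _).add
    (Finset.measurable_fun_sum _ fun i _ => Finset.measurable_fun_sum _ fun j _ =>
      Tl_meas ((W i).der j) _ _)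

lemma Zt_int [IsProbabilityMeasure P] (hτ : ∀ x, MeasurePreserving (τ x) P P)
    {G : Fin d → S → E d → ℝ} (W : ∀ i, Wave P τ (G i)) {M : ℝ} (hM : 0 ≤ M)
    (hG : ∀ i, ∫ s, G i s 0 ^ 2 ∂P ≤ M) (n : ℕ) {R : ℝ} (hR : 0 ≤ R) :
    ∫⁻ s, Zt G n R s ∂P ≤
      ENNReal.ofReal (((d : ℝ) + d * d) * ((1 + M) * Real.exp (Real.exp 1 * (d * R) - n))) := by
  have h1 : ∀ i, ∫⁻ s, Tl (n + 1) R (G i s) ∂P ≤
      ENNReal.ofReal ((1 + M) * Real.exp (Real.exp 1 * (d * R) - n)) := by
    intro i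
    refine (Tl_int hτ (W i) (hG i) hR (n + 1)).trans (ENNReal.ofReal_le_ofReal ?_)
    refine mul_le_mul_of_nonneg_left (Real.exp_le_exp.2 ?_) (by linarith)
    push_cast
    linarith
  have h2 : ∀ i j, ∫⁻ s, Tl n R (D j (G i s)) ∂P ≤
      ENNReal.ofReal ((1 + M) * Real.exp (Real.exp 1 * (d * R) - n)) := fun i j =>
    Tl_int hτ ((W i).der hτ j) ((l2_D hτ (W i) j).trans (hG i)) hR n
  unfold Zt
  rw [lintegral_add_left (Finset.measurable_fun_sum _ fun i _ => Tl_meas (W i).sf _ _),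
    lintegral_finsetSum _ fun i _ => Tl_meas (W i).sf _ _,
    lintegral_finsetSum _ fun i _ => Finset.measurable_fun_sum _ fun j _ =>
      Tl_meas ((W i).sf.der j) _ _]
  have h3 : ∀ i, ∫⁻ s, ∑ j, Tl n R (D j (G i s)) ∂P ≤
      (d : ℝ≥0∞) * ENNReal.ofReal ((1 + M) * Real.exp (Real.exp 1 * (d * R) - n)) := by
    intro i
    rw [lintegral_finsetSum _ fun j _ => Tl_meas ((W i).sf.der j) _ _]
    refine (Finset.sum_le_sum fun j _ => h2 i j).trans (le_of_eq ?_)
    rw [Finset.sum_const, Finset.card_univ, Fintype.card_fin, nsmul_eq_mul]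
  refine (add_le_add (Finset.sum_le_sum fun i _ => h1 i)
    (Finset.sum_le_sum fun i _ => h3 i)).trans (le_of_eq ?_)
  obtain ⟨c, hc⟩ : ∃ c, c = (1 + M) * Real.exp (Real.exp 1 * (d * R) - n) := ⟨_, rfl⟩
  have e0 : ENNReal.ofReal (((d : ℝ) + d * d) * c) =
      ((d : ℝ≥0∞) + d * d) * ENNReal.ofReal c := by
    rw [ENNReal.ofReal_mul (by positivity), ENNReal.ofReal_add (by positivity)
      (by positivity), ENNReal.ofReal_mul (by positivity), ENNReal.ofReal_natCast]
  rw [← hc, e0, Finset.sum_const, Finset.sum_const, Finset.card_univ, Fintype.card_fin,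
    nsmul_eq_mul, nsmul_eq_mul]
  ring

/-- one scale -/
lemma scale [IsProbabilityMeasure P] (hτ : ∀ x, MeasurePreserving (τ x) P P)
    {G : Fin d → S → E d → ℝ} (W : ∀ i, Wave P τ (G i)) {B : Set S} (mB : MeasurableSet B)
    (iB : ∀ x, τ x ⁻¹' B = B) (k : ℕ) : ∃ K : ℝ, 0 ≤ K ∧ ∀ m L n : ℕ, 0 < m →
    ((2 * L * m : ℕ) : ℝ) ^ d * P.real (B ∩ Ht G k 0 (1 / m)) ≤ ((n : ℝ) + 1) ^ d * P.real B +
      ((2 * L * m : ℕ) : ℝ) ^ d * (K * Real.exp (Real.exp 1 * (d * (L + 1)) - n)) := by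
  classical
  obtain ⟨η, η0, cnt⟩ := count d k
  obtain ⟨M, hM⟩ : ∃ M, M = ∑ i, ∫ s, G i s 0 ^ 2 ∂P := ⟨_, rfl⟩
  have nn : ∀ i, 0 ≤ ∫ s, G i s 0 ^ 2 ∂P := fun i => integral_nonneg fun s => sq_nonneg _
  have M0 : 0 ≤ M := by rw [hM]; exact Finset.sum_nonneg fun i _ => nn i
  have hG : ∀ i, ∫ s, G i s 0 ^ 2 ∂P ≤ M := fun i => by
    rw [hM]
    exact Finset.single_le_sum (f := fun i => ∫ s, G i s 0 ^ 2 ∂P) (fun i _ => nn i)
      (Finset.mem_univ i)
  refine ⟨2 / η * (((d : ℝ) + d * d) * (1 + M)), by positivity, fun m L n hm => ?_⟩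
  obtain ⟨R, hR⟩ : ∃ R : ℝ, R = L + 1 := ⟨_, rfl⟩
  have R0 : 0 ≤ R := by rw [hR]; positivity
  obtain ⟨Bd, hBd⟩ : ∃ Bd, Bd = {s | ENNReal.ofReal (η / 2) ≤ Zt G n R s} := ⟨_, rfl⟩
  have mBd : MeasurableSet Bd := by
    rw [hBd]
    exact measurableSet_le measurable_const (Zt_meas (fun i => (W i).sf) n R)
  have pBd : P.real Bd ≤ 2 / η * (((d : ℝ) + d * d) * (1 + M)) *
      Real.exp (Real.exp 1 * (d * (L + 1)) - n) := by
    have h1 := mul_meas_ge_le_lintegral (μ := P) (Zt_meas (fun i => (W i).sf) n R)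
      (ENNReal.ofReal (η / 2))
    have h2 := h1.trans (Zt_int hτ W M0 hG n R0)
    rw [← hBd, ← ENNReal.ofReal_toReal (measure_ne_top P Bd), ← ENNReal.ofReal_mul (by positivity),
      ENNReal.ofReal_le_ofReal_iff (by positivity)] at h2
    have h3 : P.real Bd = 2 / η * (η / 2 * P.real Bd) := by field_simp
    rw [h3]
    have h4 : η / 2 * P.real Bd ≤ ((d : ℝ) + d * d) * ((1 + M) *
      Real.exp (Real.exp 1 * (d * (L + 1)) - n)) := by rw [← hR]; exact h2
    calc 2 / η * (η / 2 * P.real Bd) ≤ 2 / η * (((d : ℝ) + d * d) * ((1 + M) *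
      Real.exp (Real.exp 1 * (d * (L + 1)) - n))) := mul_le_mul_of_nonneg_left h4 (by positivity)
      _ = _ := by ring
  -- pointwise
  have ptw : ∀ᵐ s ∂P, ∑ a : Fin d → Fin (2 * L * m),
      (B ∩ Ht G k (cn m L a) (1 / m)).indicator (1 : S → ℝ≥0∞) s ≤
      ((n + 1 : ℕ) : ℝ≥0∞) ^ d * B.indicator 1 s +
        ((2 * L * m : ℕ) : ℝ≥0∞) ^ d * Bd.indicator 1 s := by
    have ae := ae_all_iff.2 fun i : Fin d => ae_good hτ (W i)
    filter_upwards [ae] with s hs
    by_cases sB : s ∈ B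
    swap
    · have : ∀ a : Fin d → Fin (2 * L * m), s ∉ B ∩ Ht G k (cn m L a) (1 / m) := fun a h => sB h.1
      simp only [Set.indicator_of_notMem (this _), Finset.sum_const_zero]
      exact zero_le
    have e1 : ∀ a : Fin d → Fin (2 * L * m),
        (B ∩ Ht G k (cn m L a) (1 / m)).indicator (1 : S → ℝ≥0∞) s =
        if s ∈ Ht G k (cn m L a) (1 / m) then 1 else 0 := by
      intro a
      by_cases h : s ∈ Ht G k (cn m L a) (1 / m)
      · have h' : s ∈ B ∩ Ht G k (cn m L a) (1 / m) := ⟨sB, h⟩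
        rw [Set.indicator_of_mem h', if_pos h, Pi.one_apply]
      · rw [Set.indicator_of_notMem (fun hh => h hh.2), if_neg h]
    simp only [e1]
    rw [Finset.sum_boole]
    by_cases sb : s ∈ Bd
    · rw [Set.indicator_of_mem sb, Pi.one_apply, mul_one]
      refine le_trans ?_ le_add_self
      have := Finset.card_filter_le (Finset.univ : Finset (Fin d → Fin (2 * L * m)))
        (fun a => s ∈ Ht G k (cn m L a) (1 / m))
      rw [Finset.card_univ, Fintype.card_fun, Fintype.card_fin, Fintype.card_fin] at this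
      exact_mod_cast this
    · rw [Set.indicator_of_notMem sb, mul_zero, add_zero, Set.indicator_of_mem sB, Pi.one_apply,
        mul_one]
      have small : Zt G n R s < ENNReal.ofReal (η / 2) := by
        rw [hBd] at sb
        exact not_le.1 sb
      have t1 : ∀ i, Tl (n + 1) R (G i s) ≤ ENNReal.ofReal (η / 2) := by
        intro i
        refine le_trans ?_ small.le
        unfold Zt
        refine le_trans ?_ le_self_add
        exact Finset.single_le_sum (f := fun i => Tl (n + 1) R (G i s)) (fun i _ => zero_le)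
          (Finset.mem_univ i)
      have t2 : ∀ i j, Tl n R (D j (G i s)) ≤ ENNReal.ofReal (η / 2) := by
        intro i j
        refine le_trans ?_ small.le
        unfold Zt
        refine le_trans ?_ le_add_self
        refine le_trans ?_ (Finset.single_le_sum (f := fun i => ∑ j, Tl n R (D j (G i s)))
          (fun i _ => zero_le) (Finset.mem_univ i))
        exact Finset.single_le_sum (f := fun j => Tl n R (D j (G i s))) (fun j _ => zero_le)
          (Finset.mem_univ j)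
      have conv : ∀ x : ℝ, ‖x‖ₑ ≤ ENNReal.ofReal (η / 2) → |x| ≤ η / 2 := by
        intro x hx
        rw [← ofReal_norm, ENNReal.ofReal_le_ofReal_iff (by positivity), Real.norm_eq_abs] at hx
        exact hx
      obtain ⟨A, hA⟩ : ∃ A, A = Finset.univ.filter
        fun a : Fin d → Fin (2 * L * m) => s ∈ Ht G k (cn m L a) (1 / m) := ⟨_, rfl⟩
      rw [← hA]
      have hA' : ∀ a ∈ A, ∃ y ∈ Qc (cn m L a) (1 / m), Good k (gs G s) y := by
        intro a ha
        rw [hA, Finset.mem_filter] at ha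
        exact ha.2
      choose! y hy1 hy2 using hA'
      have inj : Set.InjOn y A := by
        intro a ha b hb e
        have h1 := hy1 a ha
        rw [e] at h1
        exact cn_inj hm a b h1 (hy1 b hb)
      have := cnt (gs G s) (fun i => (W i).sf.smooth s) n L (Nat.cast_nonneg L)
        (fun z hz i => conv _ ((TS_rem (hs i []).1 (hs i []).2 (n + 1)
          (r := R) (by rw [hR]; exact hz)).trans (t1 i)))
        (fun z hz i j => conv _ ((TS_rem (hs i [j]).1 (hs i [j]).2 n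
          (r := R) (by rw [hR]; exact hz)).trans (t2 i j)))
        (A.image y) (by
          intro z hz
          obtain ⟨a, ha, rfl⟩ := Finset.mem_image.1 hz
          exact ⟨cn_norm hm a (hy1 a ha), hy2 a ha⟩)
      rw [Finset.card_image_of_injOn inj] at this
      exact_mod_cast this
  have sfi : ∀ i, SF τ (G i) := fun i => (W i).sf
  have mH : ∀ c, MeasurableSet (B ∩ Ht G k c (1 / m)) := fun c => mB.inter (Ht_meas sfi k c _)
  have int := lintegral_mono_ae ptw
  rw [lintegral_finsetSum _ fun a _ => measurable_one.indicator (mH _),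
    lintegral_add_left ((measurable_one.indicator mB).const_mul _),
    lintegral_const_mul _ (measurable_one.indicator mB),
    lintegral_const_mul _ (measurable_one.indicator mBd)] at int
  have e2 : ∀ a : Fin d → Fin (2 * L * m),
      ∫⁻ s, (B ∩ Ht G k (cn m L a) (1 / m)).indicator (1 : S → ℝ≥0∞) s ∂P =
        P (B ∩ Ht G k 0 (1 / m)) := by
    intro a
    rw [lintegral_indicator_one (mH _), Ht_eq hτ sfi mB iB]
  simp only [e2] at int
  rw [Finset.sum_const, Finset.card_univ, Fintype.card_fun, Fintype.card_fin, Fintype.card_fin,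
    nsmul_eq_mul, lintegral_indicator_one mB, lintegral_indicator_one mBd] at int
  have int2 := ENNReal.toReal_mono (by
    refine ENNReal.add_ne_top.2 ⟨ENNReal.mul_ne_top (ENNReal.pow_ne_top (ENNReal.natCast_ne_top _))
      (measure_ne_top _ _), ENNReal.mul_ne_top (ENNReal.pow_ne_top (ENNReal.natCast_ne_top _))
      (measure_ne_top _ _)⟩) int
  rw [ENNReal.toReal_add (ENNReal.mul_ne_top (ENNReal.pow_ne_top (ENNReal.natCast_ne_top _))
      (measure_ne_top _ _)) (ENNReal.mul_ne_top (ENNReal.pow_ne_top (ENNReal.natCast_ne_top _))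
      (measure_ne_top _ _)), ENNReal.toReal_mul, ENNReal.toReal_mul, ENNReal.toReal_mul,
      ENNReal.toReal_pow, ENNReal.toReal_pow] at int2
  simp only [ENNReal.toReal_natCast] at int2
  have h5 : ((2 * L * m : ℕ) : ℝ) ^ d * P.real Bd ≤ ((2 * L * m : ℕ) : ℝ) ^ d *
      (2 / η * (((d : ℝ) + d * d) * (1 + M)) * Real.exp (Real.exp 1 * (d * (L + 1)) - n)) :=
    mul_le_mul_of_nonneg_left pBd (by positivity)
  have h6 : ((2 * L * m : ℕ) : ℝ) ^ d * P.real (B ∩ Ht G k 0 (1 / m)) ≤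
      ((n : ℝ) + 1) ^ d * P.real B + ((2 * L * m : ℕ) : ℝ) ^ d * P.real Bd := by
    have := int2
    push_cast at this ⊢
    exact this
  linarith

end

end Pool.Agent.K6.H16.CP
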