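import Pool.Agent.K6.H16.CP.Td

/-!
Critical points of stationary waves: limits, and counting with cells.
-/

set_option autoImplicit false
open MeasureTheory Filter Topology Metric
open scoped ENNReal Nat ContDiff

namespace Pool.Agent.K6.H16.CP

open Pool.Agent.Y139.SW Pool.Agent.K6.H16.QS

noncomputable section

/-- large boxes -/
lemma lim1 {d m : ℕ} {p b K : ℝ} (hb : 0 ≤ b) (hK : 0 ≤ K)
    (h : ∀ L n : ℕ, ((2 * L * m : ℕ) : ℝ) ^ d * p ≤ ((n : ℝ) + 1) ^ d * b +
      ((2 * L * m : ℕ) : ℝ) ^ d * (K * Real.exp (Real.exp 1 * (d * (L + 1)) - n))) :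
    (m : ℝ) ^ d * p ≤ (Real.exp 1 * d / 2) ^ d * b := by
  have step : ∀ A : ℝ, Real.exp 1 * d < A → (m : ℝ) ^ d * p ≤ (A / 2) ^ d * b := by
    intro A hA
    have A0 : 0 < A := lt_of_le_of_lt (by positivity) hA
    have bd : ∀ᶠ L : ℕ in atTop, (m : ℝ) ^ d * p ≤ ((A + 2 * (1 / (L : ℝ))) / 2) ^ d * b +
        (m : ℝ) ^ d * (K * Real.exp (Real.exp 1 * d - (A - Real.exp 1 * d) * L)) := by
      filter_upwards [eventually_gt_atTop 0] with L hL
      have L0 : (0 : ℝ) < L := by exact_mod_cast hL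
      obtain ⟨n, hn⟩ : ∃ n, n = ⌈A * L⌉₊ := ⟨_, rfl⟩
      have n1 : A * L ≤ n := by rw [hn]; exact Nat.le_ceil _
      have n2 : (n : ℝ) < A * L + 1 := by rw [hn]; exact Nat.ceil_lt_add_one (by positivity)
      have h1 := h L n
      have e1 : ((2 * L * m : ℕ) : ℝ) ^ d = (2 * (L : ℝ)) ^ d * (m : ℝ) ^ d := by
        push_cast
        rw [mul_pow]
      have e2 : A * L + 2 = (2 * (L : ℝ)) * ((A + 2 * (1 / (L : ℝ))) / 2) := by
        field_simp
      have h2 : ((n : ℝ) + 1) ^ d * b ≤ ((2 * (L : ℝ)) ^ d * ((A + 2 * (1 / (L : ℝ))) / 2) ^ d) *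
          b := by
        rw [← mul_pow, ← e2]
        refine mul_le_mul_of_nonneg_right (pow_le_pow_left₀ (by positivity) (by linarith) _) hb
      have h3 : K * Real.exp (Real.exp 1 * (d * (L + 1)) - n) ≤
          K * Real.exp (Real.exp 1 * d - (A - Real.exp 1 * d) * L) := by
        refine mul_le_mul_of_nonneg_left (Real.exp_le_exp.2 ?_) hK
        nlinarith
      have h4 : ((2 * L * m : ℕ) : ℝ) ^ d * (K * Real.exp (Real.exp 1 * (d * (L + 1)) - n)) ≤
          ((2 * (L : ℝ)) ^ d * (m : ℝ) ^ d) *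
            (K * Real.exp (Real.exp 1 * d - (A - Real.exp 1 * d) * L)) := by
        rw [e1]
        exact mul_le_mul_of_nonneg_left h3 (by positivity)
      have h5 : (2 * (L : ℝ)) ^ d * ((m : ℝ) ^ d * p) ≤ (2 * (L : ℝ)) ^ d *
          (((A + 2 * (1 / (L : ℝ))) / 2) ^ d * b +
        (m : ℝ) ^ d * (K * Real.exp (Real.exp 1 * d - (A - Real.exp 1 * d) * L))) := by
        rw [e1] at h1
        rw [e1] at h4
        have : (2 * (L : ℝ)) ^ d * ((m : ℝ) ^ d * p) = (2 * (L : ℝ)) ^ d * (m : ℝ) ^ d * p := by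
          ring
        rw [this]
        refine h1.trans ((add_le_add h2 h4).trans (le_of_eq ?_))
        ring
      exact le_of_mul_le_mul_left h5 (by positivity)
    have t1 : Tendsto (fun L : ℕ => 1 / (L : ℝ)) atTop (𝓝 0) :=
      tendsto_one_div_atTop_nhds_zero_nat
    have t2 : Tendsto (fun L : ℕ => ((A + 2 * (1 / (L : ℝ))) / 2) ^ d * b) atTop
        (𝓝 (((A + 2 * 0) / 2) ^ d * b)) :=
      ((((t1.const_mul 2).const_add A).div_const 2).pow d).mul_const b
    have t3 : Tendsto (fun L : ℕ => Real.exp (Real.exp 1 * d - (A - Real.exp 1 * d) * L)) atTop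
        (𝓝 0) := by
      refine Real.tendsto_exp_atBot.comp ?_
      have t4 : Tendsto (fun L : ℕ => (A - Real.exp 1 * d) * (L : ℝ)) atTop atTop :=
        (tendsto_natCast_atTop_atTop).const_mul_atTop (by linarith)
      have t6 := tendsto_atBot_add_const_left atTop (Real.exp 1 * d) (tendsto_neg_atTop_atBot.comp t4)
      refine t6.congr fun L => ?_
      simp only [Function.comp_apply]
      ring
    have t5 := t2.add ((t3.const_mul K).const_mul ((m : ℝ) ^ d))
    have := ge_of_tendsto t5 bd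
    rw [mul_zero, mul_zero, add_zero, mul_zero, add_zero] at this
    exact this
  have c : Tendsto (fun A : ℝ => (A / 2) ^ d * b) (𝓝[>] (Real.exp 1 * d))
      (𝓝 ((Real.exp 1 * d / 2) ^ d * b)) := by
    have : Continuous fun A : ℝ => (A / 2) ^ d * b := by fun_prop
    exact (this.tendsto _).mono_left nhdsWithin_le_nhds
  exact ge_of_tendsto c (eventually_nhdsWithin_of_forall fun A hA => step A hA)

variable {d : ℕ}

lemma good_mono {k l : ℕ} (hkl : k ≤ l) {g : Fin d → E d → ℝ} {y : Fin d → ℝ}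
    (h : Good k g y) : Good l g y := by
  obtain ⟨h1, h2, h3, h4⟩ := h
  have c : (k : ℝ) + 1 ≤ (l : ℝ) + 1 := by
    have : (k : ℝ) ≤ l := by exact_mod_cast hkl
    linarith
  refine ⟨h1, le_trans ?_ h2, fun i j => (h3 i j).trans c, fun z hz i j => (h4 z hz i j).trans ?_⟩
  · exact one_div_le_one_div_of_le (by positivity) c
  · exact mul_le_mul_of_nonneg_right c (norm_nonneg _)

lemma lip {f : (Fin d → ℝ) → ℝ} (hf : ContDiff ℝ ∞ f) (y : Fin d → ℝ) :
    ∃ C : ℝ, ∀ z : Fin d → ℝ, ‖z‖ ≤ 1 → |f (y + z) - f y| ≤ C * ‖z‖ := by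
  have cf : Continuous fun w => ‖fderiv ℝ f w‖ := (hf.continuous_fderiv (by simp)).norm
  obtain ⟨C, hC⟩ := (isCompact_closedBall y 1).exists_bound_of_continuousOn cf.continuousOn
  refine ⟨C, fun z hz => ?_⟩
  have := (convex_closedBall y 1).norm_image_sub_le_of_norm_fderiv_le (𝕜 := ℝ) (f := f) (C := C)
    (fun x _ => (hf.differentiable (by simp)) x) (fun x hx => by simpa using hC x hx)
    (mem_closedBall_self zero_le_one) (y := y + z) (by
      rw [mem_closedBall, dist_eq_norm]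
      simpa using hz)
  rw [add_sub_cancel_left] at this
  exact this

/-- every nondegenerate zero is quantitatively nondegenerate -/
lemma exists_good {g : Fin d → E d → ℝ} (hg : ∀ i, ContDiff ℝ ∞ (g i)) {y : Fin d → ℝ}
    (h0 : ∀ i, g i (tp y) = 0) (h1 : (Jc g y).det ≠ 0) : ∃ k, Good k g y := by
  have smt : ∀ i j, ContDiff ℝ ∞ fun w : Fin d → ℝ => D j (g i) (tp w) := fun i j =>
    (D_sm (hg i) j).comp (tpL d).contDiff
  choose C hC using fun i j => lip (smt i j) y
  have t : Tendsto (fun k : ℕ => (k : ℝ) + 1) atTop atTop :=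
    tendsto_atTop_add_const_right _ _ tendsto_natCast_atTop_atTop
  have ev1 : ∀ᶠ k : ℕ in atTop, 1 / ((k : ℝ) + 1) < |(Jc g y).det| :=
    (tendsto_one_div_add_atTop_nhds_zero_nat (𝕜 := ℝ)).eventually
      (gt_mem_nhds (abs_pos.2 h1))
  have ev2 : ∀ᶠ k : ℕ in atTop, ∀ i j, |D j (g i) (tp y)| ≤ (k : ℝ) + 1 :=
    eventually_all.2 fun i => eventually_all.2 fun j => t.eventually_ge_atTop _
  have ev3 : ∀ᶠ k : ℕ in atTop, ∀ i j, C i j ≤ (k : ℝ) + 1 :=
    eventually_all.2 fun i => eventually_all.2 fun j => t.eventually_ge_atTop _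
  obtain ⟨k, ⟨k1, k2⟩, k3⟩ := ((ev1.and ev2).and ev3).exists
  exact ⟨k, h0, k1.le, k2, fun z hz i j => (hC i j z hz).trans
    (mul_le_mul_of_nonneg_right (k3 i j) (norm_nonneg _))⟩

section count

variable {S : Type*}

/-- the event that a cell meets the random set -/
def Hz (Z : S → Set (Fin d → ℝ)) (c : Fin d → ℝ) (h : ℝ) : Set S := {s | ∃ y ∈ Qc c h, y ∈ Z s}

/-- the number of points in the unit cube -/
def num (Z : S → Set (Fin d → ℝ)) (s : S) : ℝ≥0∞ := ({y | y ∈ Qc 0 1 ∧ y ∈ Z s}.encard : ℝ≥0∞)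

/-- the corners of the cells of the unit cube -/
def cu (m : ℕ) (a : Fin d → Fin m) : Fin d → ℝ := fun i => ((a i : ℕ) : ℝ) / m

/-- the number of cells hit -/
def app (Z : S → Set (Fin d → ℝ)) (m : ℕ) (s : S) : ℝ≥0∞ :=
  ∑ a : Fin d → Fin m, (Hz Z (cu m a) (1 / m)).indicator 1 s

open Classical in
lemma app_eq (Z : S → Set (Fin d → ℝ)) (m : ℕ) (s : S) : app Z m s =
    ((Finset.univ.filter fun a : Fin d → Fin m => s ∈ Hz Z (cu m a) (1 / m)).card : ℝ≥0∞) := by
  unfold app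
  rw [Finset.card_filter]
  push_cast
  refine Finset.sum_congr rfl fun k _ => ?_
  by_cases h : s ∈ Hz Z (cu m k) (1 / m)
  · rw [Set.indicator_of_mem h, if_pos h, Pi.one_apply]
  · rw [Set.indicator_of_notMem h, if_neg h]

lemma cu_floor {m : ℕ} (m0 : (0 : ℝ) < m) {a : Fin d → Fin m} {y : Fin d → ℝ}
    (ha : y ∈ Qc (cu m a) (1 / m)) (i : Fin d) : ⌊y i * m⌋ = ((a i : ℕ) : ℤ) := by
  obtain ⟨h1, h2⟩ := ha i
  unfold cu at h1 h2
  rw [Int.floor_eq_iff]
  push_cast
  have e1 : ((a i : ℕ) : ℝ) = ((a i : ℕ) : ℝ) / m * m := by field_simp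
  have e2 : (1 : ℝ) = 1 / m * m := by field_simp
  constructor
  · rw [e1]
    exact mul_le_mul_of_nonneg_right h1 m0.le
  · calc y i * m < (((a i : ℕ) : ℝ) / m + 1 / m) * m := mul_lt_mul_of_pos_right h2 m0
      _ = ((a i : ℕ) : ℝ) + 1 := by rw [add_mul, ← e1, ← e2]

lemma app_le (Z : S → Set (Fin d → ℝ)) {m : ℕ} (hm : 0 < m) (s : S) : app Z m s ≤ num Z s := by
  classical
  rw [app_eq]
  have m0 : (0 : ℝ) < m := by exact_mod_cast hm
  obtain ⟨A, hA⟩ : ∃ A, A = Finset.univ.filter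
    fun a : Fin d → Fin m => s ∈ Hz Z (cu m a) (1 / m) := ⟨_, rfl⟩
  rw [← hA]
  have hA' : ∀ a ∈ A, ∃ y ∈ Qc (cu m a) (1 / m), y ∈ Z s := by
    intro a ha
    rw [hA, Finset.mem_filter] at ha
    exact ha.2
  choose! t ht1 ht2 using hA'
  have inj : Set.InjOn t A := by
    intro a ha b hb e
    funext i
    have h1 := cu_floor m0 (ht1 a ha) i
    rw [e, cu_floor m0 (ht1 b hb) i] at h1
    exact Fin.ext (by exact_mod_cast h1.symm)
  have sub : ((A.image t : Finset (Fin d → ℝ)) : Set (Fin d → ℝ)) ⊆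
      {y | y ∈ Qc 0 1 ∧ y ∈ Z s} := by
    intro x hx
    obtain ⟨a, ha, rfl⟩ := Finset.mem_image.1 hx
    refine ⟨fun i => ?_, ht2 a ha⟩
    obtain ⟨h1, h2⟩ := ht1 a ha i
    unfold cu at h1 h2
    rw [Pi.zero_apply]
    refine ⟨le_trans (by positivity) h1, h2.trans_le ?_⟩
    rw [zero_add, ← add_div, div_le_one m0]
    have := (a i).2
    exact_mod_cast this
  have h := Set.encard_le_encard sub
  rw [Set.encard_coe_eq_coe_finsetCard, Finset.card_image_of_injOn inj] at h
  unfold num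
  have := ENat.toENNReal_le.2 h
  simpa using this

lemma fin_le (Z : S → Set (Fin d → ℝ)) (s : S) (T : Finset (Fin d → ℝ))
    (hT : ∀ t ∈ T, t ∈ Qc (0 : Fin d → ℝ) 1 ∧ t ∈ Z s) :
    ∀ᶠ m : ℕ in atTop, (T.card : ℝ≥0∞) ≤ app Z m s := by
  classical
  have ev : ∀ᶠ m : ℕ in atTop, ∀ p ∈ T.offDiag, 1 / (m : ℝ) < ‖p.1 - p.2‖ := by
    rw [eventually_all_finset]
    intro p hp
    rw [Finset.mem_offDiag] at hp
    have : 0 < ‖p.1 - p.2‖ := norm_pos_iff.2 (sub_ne_zero.2 hp.2.2)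
    exact (tendsto_one_div_atTop_nhds_zero_nat (𝕜 := ℝ)).eventually (gt_mem_nhds this)
  filter_upwards [ev, eventually_gt_atTop 0] with m hm m0
  have m0' : (0 : ℝ) < m := by exact_mod_cast m0
  rw [app_eq]
  obtain ⟨fl, hfl⟩ : ∃ fl : (Fin d → ℝ) → Fin d → Fin m,
      fl = fun t i => ⟨min ⌊t i * m⌋₊ (m - 1), by omega⟩ := ⟨_, rfl⟩
  have flv : ∀ t ∈ T, ∀ i, ((fl t i : Fin m) : ℕ) = ⌊t i * m⌋₊ := by
    intro t ht i
    rw [hfl]
    show min ⌊t i * m⌋₊ (m - 1) = _
    refine min_eq_left ?_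
    obtain ⟨h1, h2⟩ := (hT t ht).1 i
    rw [Pi.zero_apply] at h1 h2
    have : ⌊t i * m⌋₊ < m := by
      rw [Nat.floor_lt (by positivity)]
      nlinarith
    omega
  have mem : ∀ t ∈ T, t ∈ Qc (cu m (fl t)) (1 / m) := by
    intro t ht i
    obtain ⟨h1, _⟩ := (hT t ht).1 i
    rw [Pi.zero_apply] at h1
    unfold cu
    rw [flv t ht, ← add_div, div_le_iff₀ m0', lt_div_iff₀ m0']
    exact ⟨Nat.floor_le (by positivity), Nat.lt_floor_add_one _⟩
  have le : T.card ≤ (Finset.univ.filter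
      fun a : Fin d → Fin m => s ∈ Hz Z (cu m a) (1 / m)).card := by
    refine Finset.card_le_card_of_injOn fl ?_ ?_
    · intro t ht
      have ht' : t ∈ T := ht
      simp only [Finset.coe_filter, Finset.mem_univ, true_and, Set.mem_ofPred_eq]
      exact ⟨t, mem t ht', (hT t ht').2⟩
    · intro x hx y hy e
      have hx' : x ∈ T := hx
      have hy' : y ∈ T := hy
      by_contra hne
      have h1 := hm (x, y) (Finset.mem_offDiag.2 ⟨hx', hy', hne⟩)
      have h2 := mem x hx'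
      have h3 := mem y hy'
      rw [e] at h2
      have : ‖x - y‖ < 1 / (m : ℝ) := by
        rw [pi_norm_lt_iff (by positivity)]
        intro i
        rw [Real.norm_eq_abs, Pi.sub_apply, abs_lt]
        constructor <;> linarith [(h2 i).1, (h2 i).2, (h3 i).1, (h3 i).2]
      simp only at h1
      linarith
  exact_mod_cast le

lemma num_le (Z : S → Set (Fin d → ℝ)) (s : S) :
    num Z s ≤ liminf (fun m => app Z m s) atTop := by
  classical
  unfold num
  obtain ⟨Y, hY⟩ : ∃ Y, Y = {y | y ∈ Qc (0 : Fin d → ℝ) 1 ∧ y ∈ Z s} := ⟨_, rfl⟩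
  rw [← hY]
  rcases Y.finite_or_infinite with h | h
  · have k := fin_le Z s h.toFinset (by
      intro t ht
      rw [Set.Finite.mem_toFinset, hY] at ht
      exact ht)
    have e : (Y.encard : ℝ≥0∞) = (h.toFinset.card : ℝ≥0∞) := by
      rw [h.encard_eq_coe_toFinset_card]
      simp
    rw [e]
    exact le_liminf_of_le (by isBoundedDefault) k
  · have e : ∀ n : ℕ, (n : ℝ≥0∞) ≤ liminf (fun m => app Z m s) atTop := by
      intro n
      obtain ⟨T, hT, hc⟩ := h.exists_subset_card_eq n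
      have k := fin_le Z s T (by
        intro t ht
        have := hT ht
        rw [hY] at this
        exact this)
      rw [hc] at k
      exact le_liminf_of_le (by isBoundedDefault) k
    have : liminf (fun m => app Z m s) atTop = ⊤ := ENNReal.eq_top_of_forall_nnreal_le fun r => by
      obtain ⟨n, hn⟩ := exists_nat_ge r
      refine le_trans ?_ (e n)
      exact_mod_cast hn
    rw [this]
    exact le_top

lemma num_eq (Z : S → Set (Fin d → ℝ)) (s : S) :
    num Z s = liminf (fun m => app Z m s) atTop := by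
  refine le_antisymm (num_le Z s) ?_
  refine liminf_le_of_le (by isBoundedDefault) fun b hb => ?_
  obtain ⟨m, hm, m0⟩ := (hb.and (eventually_gt_atTop 0)).exists
  exact hm.trans (app_le Z m0 s)

variable [MeasurableSpace S]

lemma app_meas {Z : S → Set (Fin d → ℝ)} (mZ : ∀ c h, MeasurableSet (Hz Z c h)) (m : ℕ) :
    Measurable (app Z m) :=
  Finset.measurable_fun_sum _ fun _ _ => measurable_one.indicator (mZ _ _)

lemma num_meas {Z : S → Set (Fin d → ℝ)} (mZ : ∀ c h, MeasurableSet (Hz Z c h)) :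
    Measurable (num Z) := by
  have : num Z = fun s => liminf (fun m => app Z m s) atTop := funext (num_eq Z)
  rw [this]
  exact Measurable.liminf fun m => app_meas mZ m

/-- counting from cells -/
lemma num_int {P : Measure S} {Z : S → Set (Fin d → ℝ)} (mZ : ∀ c h, MeasurableSet (Hz Z c h))
    {B : Set S} (a : ℝ≥0∞)
    (h : ∀ m : ℕ, 0 < m → ∀ c, P (B ∩ Hz Z c (1 / m)) ≤ a / (m : ℝ≥0∞) ^ d) :
    ∫⁻ s in B, num Z s ∂P ≤ a := by
  simp only [num_eq]
  refine (lintegral_liminf_le fun m => app_meas mZ m).trans ?_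
  refine liminf_le_of_le (by isBoundedDefault) fun b hb => ?_
  obtain ⟨m, hm, m0⟩ := (hb.and (eventually_gt_atTop 0)).exists
  refine hm.trans ?_
  unfold app
  rw [lintegral_finsetSum _ fun k _ => measurable_one.indicator (mZ _ _)]
  have e : ∀ k ∈ (Finset.univ : Finset (Fin d → Fin m)),
      ∫⁻ s in B, (Hz Z (cu m k) (1 / m)).indicator 1 s ∂P ≤ a / (m : ℝ≥0∞) ^ d := by
    intro k _
    rw [lintegral_indicator_one (mZ _ _), Measure.restrict_apply (mZ _ _), Set.inter_comm]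
    exact h m m0 _
  refine (Finset.sum_le_sum e).trans (le_of_eq ?_)
  rw [Finset.sum_const, Finset.card_univ, Fintype.card_fun, Fintype.card_fin, Fintype.card_fin,
    nsmul_eq_mul, Nat.cast_pow]
  refine ENNReal.mul_div_cancel (pow_ne_zero _ ?_) (ENNReal.pow_ne_top (ENNReal.natCast_ne_top m))
  exact_mod_cast m0.ne'

end count

end

end Pool.Agent.K6.H16.CP
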