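import Pool.Agent.K6.H16.CP.Te
import Pool.Agent.K6.H16.LC.F

/-!
Critical points of stationary waves: the mean number of nondegenerate zeros.
-/

set_option autoImplicit false
open MeasureTheory Filter Topology Metric
open scoped ENNReal Nat ContDiff

namespace Pool.Agent.K6.H16.CP

open Pool.Agent.Y139.SW Pool.Agent.K6.H16.QS

noncomputable section

variable {d : ℕ} {S : Type*} [MeasurableSpace S] {P : Measure S} {τ : E d → S → S}

/-- the nondegenerate zeros -/
def Zr (G : Fin d → S → E d → ℝ) (s : S) : Set (Fin d → ℝ) :=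
  {y | (∀ i, gs G s i (tp y) = 0) ∧ (Jc (gs G s) y).det ≠ 0}

lemma Hz_eq {G : Fin d → S → E d → ℝ} (W : ∀ i, SF τ (G i)) (c : Fin d → ℝ) (h : ℝ) :
    Hz (Zr G) c h = ⋃ k, Ht G k c h := by
  ext s
  simp only [Hz, Ht, Set.mem_ofPred_eq, Set.mem_iUnion]
  constructor
  · rintro ⟨y, hy, h1, h2⟩
    obtain ⟨k, hk⟩ := exists_good (g := gs G s) (fun i => (W i).smooth s) h1 h2
    exact ⟨k, y, hy, hk⟩
  · rintro ⟨k, y, hy, h1, h2, _⟩
    refine ⟨y, hy, h1, fun h0 => ?_⟩
    rw [h0, abs_zero] at h2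
    have : (0 : ℝ) < 1 / ((k : ℝ) + 1) := by positivity
    linarith

lemma Hz_meas {G : Fin d → S → E d → ℝ} (W : ∀ i, SF τ (G i)) (c : Fin d → ℝ) (h : ℝ) :
    MeasurableSet (Hz (Zr G) c h) := by
  rw [Hz_eq W]
  exact MeasurableSet.iUnion fun k => Ht_meas W k c h

/-- the mean number of nondegenerate zeros of `d` jointly stationary waves -/
theorem zeros_mean [IsProbabilityMeasure P] (hτ : ∀ x, MeasurePreserving (τ x) P P)
    {G : Fin d → S → E d → ℝ} (W : ∀ i, Wave P τ (G i)) {B : Set S} (mB : MeasurableSet B)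
    (iB : ∀ x, τ x ⁻¹' B = B) :
    Measurable (num (Zr G)) ∧
    ∫⁻ s in B, num (Zr G) s ∂P ≤ ENNReal.ofReal ((Real.exp 1 * d / 2) ^ d) * P B := by
  have sfi : ∀ i, SF τ (G i) := fun i => (W i).sf
  refine ⟨num_meas (Hz_meas sfi), num_int (Hz_meas sfi) _ fun m hm c => ?_⟩
  have m0 : (0 : ℝ) < (m : ℝ) ^ d := by
    have : (0 : ℝ) < m := by exact_mod_cast hm
    positivity
  have mono : Monotone fun k => B ∩ Ht G k c (1 / m) := by
    intro k l hkl s hs
    obtain ⟨h1, y, hy, h2⟩ := hs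
    exact ⟨h1, y, hy, good_mono hkl h2⟩
  rw [Hz_eq sfi, Set.inter_iUnion, mono.measure_iUnion]
  refine iSup_le fun k => ?_
  rw [Ht_eq hτ sfi mB iB]
  obtain ⟨K, hK, hs⟩ := scale hτ W mB iB k
  have key := lim1 (p := P.real (B ∩ Ht G k 0 (1 / m))) (b := P.real B) measureReal_nonneg hK
    (fun L n => hs m L n hm)
  have k2 : P.real (B ∩ Ht G k 0 (1 / m)) ≤ (Real.exp 1 * d / 2) ^ d * P.real B / (m : ℝ) ^ d := by
    rw [le_div_iff₀ m0, mul_comm]
    exact key
  rw [← ofReal_measureReal (measure_ne_top _ _)]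
  refine (ENNReal.ofReal_le_ofReal k2).trans (le_of_eq ?_)
  rw [ENNReal.ofReal_div_of_pos m0, ENNReal.ofReal_mul (by positivity),
    ofReal_measureReal (measure_ne_top _ _), ENNReal.ofReal_pow (Nat.cast_nonneg m),
    ENNReal.ofReal_natCast]

/-- the event that a smooth field vanishes nowhere identically -/
lemma ne_meas {G : S → E d → ℝ} (W : SF τ G) : MeasurableSet {s | ∃ y, G s y ≠ 0} := by
  have e : {s | ∃ y, G s y ≠ 0} =
      ⋃ n : ℕ, {s | G s (TopologicalSpace.denseSeq (E d) n) ≠ 0} := by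
    ext s
    simp only [Set.mem_ofPred_eq, Set.mem_iUnion]
    constructor
    · rintro ⟨y, hy⟩
      by_contra hn
      push Not at hn
      have := (TopologicalSpace.denseRange_denseSeq (E d)).equalizer (W.smooth s).continuous
        (continuous_const (y := (0 : ℝ))) (funext fun n => hn n)
      exact hy (congrFun this y)
    · rintro ⟨n, hn⟩
      exact ⟨_, hn⟩
  rw [e]
  exact MeasurableSet.iUnion fun n => (W.meas _) (measurableSet_singleton (0 : ℝ)).compl

lemma ne_inv {G : S → E d → ℝ} (W : SF τ G) (x : E d) :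
    τ x ⁻¹' {s | ∃ y, G s y ≠ 0} = {s | ∃ y, G s y ≠ 0} := by
  ext s
  simp only [Set.mem_preimage, Set.mem_ofPred_eq]
  constructor
  · rintro ⟨y, hy⟩
    rw [W.cov] at hy
    exact ⟨_, hy⟩
  · rintro ⟨y, hy⟩
    refine ⟨y - x, ?_⟩
    rw [W.cov, sub_add_cancel]
    exact hy

/-- the number of nondegenerate critical points in the unit cube -/
def crit (F : S → E d → ℝ) (s : S) : ℝ≥0∞ :=
  ({x : E d | (∀ i, x i ∈ Set.Ico (0 : ℝ) 1) ∧ (∀ i, D i (F s) x = 0) ∧
    (Matrix.of fun i j => D j (D i (F s)) x).det ≠ 0}.encard : ℝ≥0∞)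

omit [MeasurableSpace S] in
lemma crit_eq (F : S → E d → ℝ) (s : S) :
    crit F s = num (fun s : S => {y : Fin d → ℝ | (∀ i, D i (F s) (tp y) = 0) ∧
      (Matrix.of fun i j => D j (D i (F s)) (tp y)).det ≠ 0}) s := by
  unfold crit num
  have inj : Function.Injective (tp (d := d)) := fun x y h => by
    funext i
    have := congrArg (fun z : E d => z i) h
    exact this
  have e : {x : E d | (∀ i, x i ∈ Set.Ico (0 : ℝ) 1) ∧ (∀ i, D i (F s) x = 0) ∧
      (Matrix.of fun i j => D j (D i (F s)) x).det ≠ 0} =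
      tp '' {y : Fin d → ℝ | y ∈ Qc 0 1 ∧ y ∈ {y : Fin d → ℝ | (∀ i, D i (F s) (tp y) = 0) ∧
      (Matrix.of fun i j => D j (D i (F s)) (tp y)).det ≠ 0}} := by
    ext x
    simp only [Set.mem_ofPred_eq, Set.mem_image]
    constructor
    · rintro ⟨h1, h2, h3⟩
      refine ⟨fun i => x i, ⟨fun i => ?_, h2, h3⟩, rfl⟩
      obtain ⟨h4, h5⟩ := h1 i
      rw [Pi.zero_apply]
      exact ⟨h4, by rw [zero_add]; exact h5⟩
    · rintro ⟨y, ⟨h1, h2, h3⟩, rfl⟩
      refine ⟨fun i => ?_, h2, h3⟩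
      obtain ⟨h4, h5⟩ := h1 i
      rw [Pi.zero_apply] at h4 h5
      rw [zero_add] at h5
      exact ⟨h4, h5⟩
  rw [e, inj.encard_image]

/-- critical points of a wave -/
theorem crit_mean [IsProbabilityMeasure P] (hτ : ∀ x, MeasurePreserving (τ x) P P)
    {F : S → E d → ℝ} (W : Wave P τ F) :
    Measurable (crit F) ∧
    ∫⁻ s in {s | ∃ y, F s y ≠ 0}, crit F s ∂P ≤
      ENNReal.ofReal ((Real.exp 1 * d / 2) ^ d) * P {s | ∃ y, F s y ≠ 0} := by
  have e : crit F = num (Zr fun i s => D i (F s)) := funext fun s => crit_eq F s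
  rw [e]
  exact zeros_mean hτ (fun i => W.der hτ i) (ne_meas W.sf) (ne_inv W.sf)

/-- the theorem for general stationary waves -/
theorem fin [IsProbabilityMeasure P] {F : S → E d → ℝ} (mF : ∀ y, Measurable fun s => F s y)
    (sF : ∀ s, ContDiff ℝ ∞ (F s)) (eF : ∀ s y, Lap (F s) y + F s y = 0)
    (st : ∀ x : E d, P.map (fun s y => F s (y + x)) = P.map (fun s y => F s y))
    (l2 : Integrable (fun s => F s 0 ^ 2) P) :
    Measurable (crit F) ∧
    ∫⁻ s in {s | ∃ y, F s y ≠ 0}, crit F s ∂P ≤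
      ENNReal.ofReal ((Real.exp 1 * d / 2) ^ d) * P {s | ∃ y, F s y ≠ 0} := by
  obtain ⟨Φ, mΦ, v1, hQ, hτ, W⟩ := LC.canon mF sF eF st l2
  obtain ⟨h1, h2⟩ := crit_mean hτ W
  have e3 : ∀ s, crit (fun f : LC.Sol d => f.1) (Φ s) = crit F s := by
    intro s
    unfold crit
    simp only [v1]
  have e4 : crit F = fun s => crit (fun f : LC.Sol d => f.1) (Φ s) := funext fun s => (e3 s).symm
  refine ⟨by rw [e4]; exact h1.comp mΦ, ?_⟩
  have mB := ne_meas W.sf
  rw [setLIntegral_map mB h1 mΦ, Measure.map_apply mΦ mB] at h2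
  have e1 : Φ ⁻¹' {f : LC.Sol d | ∃ y, f.1 y ≠ 0} = {s | ∃ y, F s y ≠ 0} := by
    ext s
    simp only [Set.mem_preimage, Set.mem_ofPred_eq, v1]
  simp only [e3] at h2
  calc _ ≤ _ := le_of_eq (by rw [← e1])
    _ ≤ _ := h2
    _ = _ := by rw [← e1]

end

end Pool.Agent.K6.H16.CP
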